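import Pool.Agent.Helper37.SDP.KN
import Pool.Agent.Helper61.SDP.FO

set_option autoImplicit false

/-!
# The knapsack pseudo-density: supremum norm and values
-/

namespace Pool.Agent.Helper68.SDX

open Finset Pool.Agent.Helper68.SDP Pool.Agent.Helper37.SDP

/-- the test function -/
def fk (t : ℕ) (z : Fin (4 * t + 1) → Bool) : ℝ :=
  ((wt z : ℝ) - 2 * t) * ((wt z : ℝ) - 2 * t - 1)

theorem fk_nonneg (t : ℕ) (z : Fin (4 * t + 1) → Bool) : 0 ≤ fk t z := by
  have h : ∀ u : ℤ, 0 ≤ u * (u - 1) := by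
    intro u
    rcases le_or_gt u 0 with h | h
    · nlinarith
    · have : 1 ≤ u := h
      nlinarith
  have h1 := h ((wt z : ℤ) - 2 * t)
  have h2 : (0 : ℝ) ≤ ((((wt z : ℤ) - 2 * t) * ((wt z : ℤ) - 2 * t - 1) : ℤ) : ℝ) := by
    exact_mod_cast h1
  push_cast at h2
  exact h2

theorem wt_le {m : ℕ} (z : Fin m → Bool) : wt z ≤ m := by
  unfold wt
  have := card_le_univ (univ.filter fun i => z i = true)
  simpa using this

theorem fk_le (t : ℕ) (z : Fin (4 * t + 1) → Bool) : fk t z ≤ 2 * t * (2 * t + 1) := by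
  unfold fk
  have h1 : (wt z : ℝ) ≤ 4 * t + 1 := by exact_mod_cast wt_le z
  have h0 : (0 : ℝ) ≤ wt z := by positivity
  nlinarith

/-- the total mass of the test function -/
theorem sum_fk (t : ℕ) : ∑ z, fk t z = 2 ^ (4 * t + 1) * (t : ℝ) := by
  have h1 : ∀ z : Fin (4 * t + 1) → Bool, fk t z = 1 / 4 * (∑ i, ∑ j, (chi {i} z * chi {j} z))
      - 1 / 4 := by
    intro z
    have h2 : ∑ i, chi {i} z = (4 * t + 1 : ℝ) - 2 * wt z := by
      rw [wt_eq, mul_sum]
      have e : ∀ i, chi {i} z = 1 - 2 * (if z i = true then (1 : ℝ) else 0) := by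
        intro i
        unfold chi
        rw [prod_singleton]
        split_ifs <;> norm_num
      rw [sum_congr rfl fun i _ => e i, sum_sub_distrib]
      simp
    have h3 : ∑ i, ∑ j, (chi {i} z * chi {j} z) = (∑ i, chi {i} z) ^ 2 := by
      rw [sq, sum_mul_sum]
    rw [h3, h2]
    unfold fk
    ring
  rw [sum_congr rfl fun z _ => h1 z, sum_sub_distrib, ← mul_sum, sum_comm]
  have h4 : ∀ i j : Fin (4 * t + 1), ∑ z : Fin (4 * t + 1) → Bool, chi {i} z * chi {j} z
      = if i = j then (2 : ℝ) ^ (4 * t + 1) else 0 := by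
    intro i j
    rw [Pool.Agent.Helper61.SDPFO.orth]
    simp
  have h5 : ∑ i : Fin (4 * t + 1), ∑ z : Fin (4 * t + 1) → Bool, ∑ j, chi {i} z * chi {j} z
      = (4 * t + 1) * (2 : ℝ) ^ (4 * t + 1) := by
    have : ∀ i : Fin (4 * t + 1), ∑ z : Fin (4 * t + 1) → Bool, ∑ j, chi {i} z * chi {j} z
        = 2 ^ (4 * t + 1) := by
      intro i
      rw [sum_comm]
      rw [sum_congr rfl fun j _ => h4 i j]
      simp
    rw [sum_congr rfl fun i _ => this i]
    simp
  rw [h5]
  simp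
  ring

/-- the value of the pseudo-density at the test function -/
theorem D_fk (t : ℕ) (ht : 1 ≤ t) : ∑ z, D t z * fk t z = -(1 / 4) := by
  unfold fk
  have h0 : ∑ z, D t z = 1 := by
    have := Et_X t ∅
    simpa [X, w_zero] using this
  have hK0 : ∑ z, D t z * ((2 * t + 1 / 2 : ℝ) - wt z) = 0 := by
    have := K1 t ∅ (by simp)
    simpa [X] using this
  have hK1 : ∑ z, D t z * (((2 * t + 1 / 2 : ℝ) - wt z) * wt z) = 0 := by
    have h1 : ∀ z : Fin (4 * t + 1) → Bool, D t z * (((2 * t + 1 / 2 : ℝ) - wt z) * wt z) =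
        ∑ i, D t z * (((2 * t + 1 / 2 : ℝ) - wt z) * X {i} z) := by
      intro z
      nth_rewrite 2 [wt_eq]
      rw [← mul_sum, ← mul_sum]
      simp [X]
    rw [sum_congr rfl fun z _ => h1 z, sum_comm]
    refine sum_eq_zero fun i _ => K1 t {i} ?_
    rw [card_singleton]
    omega
  have h3 : ∀ z : Fin (4 * t + 1) → Bool,
      D t z * (((wt z : ℝ) - 2 * t) * ((wt z : ℝ) - 2 * t - 1)) =
      (2 * t + 1 / 2 : ℝ) * (D t z * ((2 * t + 1 / 2 : ℝ) - wt z)) -
        D t z * (((2 * t + 1 / 2 : ℝ) - wt z) * wt z) - (1 / 4) * D t z := by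
    intro z
    ring
  rw [sum_congr rfl fun z _ => h3 z, sum_sub_distrib, sum_sub_distrib, ← mul_sum, ← mul_sum,
    hK0, hK1, h0]
  ring

/-- absolute value of the product -/
noncomputable def P (t a : ℕ) : ℝ := |∏ i ∈ range a, ((2 * t + 1 / 2 : ℝ) - i)|

theorem P_succ (t a : ℕ) : P t (a + 1) = P t a * |(2 * t + 1 / 2 : ℝ) - a| := by
  unfold P
  rw [prod_range_succ, abs_mul]

theorem P_nonneg (t a : ℕ) : 0 ≤ P t a := abs_nonneg _

/-- the product is maximal in the middle -/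
theorem P_mid (t : ℕ) : ∀ j : ℕ, j ≤ 2 * t →
    P t (2 * t - j) * P t (2 * t + 1 + j) ≤ P t (2 * t) * P t (2 * t + 1) := by
  intro j
  induction j with
  | zero => intro _; simp
  | succ j ih =>
    intro hj
    refine le_trans ?_ (ih (by omega))
    obtain ⟨a, ha⟩ : ∃ a, 2 * t - j = a + 1 := ⟨2 * t - j - 1, by omega⟩
    have ha2 : 2 * t - (j + 1) = a := by omega
    have hb : 2 * t + 1 + (j + 1) = (2 * t + 1 + j) + 1 := by ring
    rw [ha2, hb, ha, P_succ, P_succ]
    have e1 : |(2 * t + 1 / 2 : ℝ) - a| = j + 3 / 2 := by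
      have : (a : ℝ) = 2 * t - j - 1 := by
        have : (a : ℝ) + 1 + j = 2 * t := by exact_mod_cast (by omega : a + 1 + j = 2 * t)
        linarith
      rw [this, abs_of_nonneg]
      · ring
      · have : (0 : ℝ) ≤ j := by positivity
        linarith
    have e2 : |(2 * t + 1 / 2 : ℝ) - ((2 * t + 1 + j : ℕ) : ℝ)| = j + 1 / 2 := by
      push_cast
      rw [abs_sub_comm, abs_of_nonneg]
      · ring
      · have : (0 : ℝ) ≤ j := by positivity
        linarith
    rw [e1, e2]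
    have h0 : 0 ≤ P t a * P t (2 * t + 1 + j) := mul_nonneg (P_nonneg _ _) (P_nonneg _ _)
    nlinarith

theorem abs_w (t a b : ℕ) (h : a + b = 4 * t + 1) :
    |w t a b| = P t a * P t b / ∏ i ∈ range (4 * t + 1), ((4 * t + 1 : ℝ) - i) := by
  unfold w P
  rw [abs_div, abs_mul, h, abs_of_pos (den_pos t (4 * t + 1) le_rfl)]

/-- the products in the middle, for general parameters -/
noncomputable def u (p : ℕ) : ℝ := 2 ^ (2 * p + 1) *
  ((∏ i ∈ range p, ((p + 1 / 2 : ℝ) - i)) * (∏ i ∈ range (p + 1), ((p + 1 / 2 : ℝ) - i))) /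
    ∏ i ∈ range (2 * p + 1), ((2 * p + 1 : ℝ) - i)

theorem prod_refl (p : ℕ) : ∏ i ∈ range p, ((p + 1 / 2 : ℝ) - i) = ∏ i ∈ range p, ((i : ℝ) + 3 / 2) := by
  rw [← prod_range_reflect]
  refine prod_congr rfl fun i hi => ?_
  have h := mem_range.mp hi
  have : ((p - 1 - i : ℕ) : ℝ) = p - 1 - i := by
    rw [Nat.cast_sub (by omega), Nat.cast_sub (by omega)]
    push_cast; ring
  rw [this]; ring

theorem prod_refl' (q : ℕ) : ∏ i ∈ range q, ((q : ℝ) - i) = ∏ i ∈ range q, ((i : ℝ) + 1) := by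
  rw [← prod_range_reflect]
  refine prod_congr rfl fun i hi => ?_
  have h := mem_range.mp hi
  have : ((q - 1 - i : ℕ) : ℝ) = q - 1 - i := by
    rw [Nat.cast_sub (by omega), Nat.cast_sub (by omega)]
    push_cast; ring
  rw [this]; ring

theorem u_eq (p : ℕ) : u p = 2 ^ (2 * p) * (∏ i ∈ range p, ((i : ℝ) + 3 / 2)) ^ 2 /
    ∏ i ∈ range (2 * p + 1), ((i : ℝ) + 1) := by
  unfold u
  have e : (2 * p + 1 : ℝ) = ((2 * p + 1 : ℕ) : ℝ) := by push_cast; ring
  rw [prod_range_succ, prod_refl, e, prod_refl', pow_succ]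
  congr 1
  ring

theorem u_sq (p : ℕ) : 0 ≤ u p ∧ u p ^ 2 ≤ (4 * p + 3) / 3 := by
  induction p with
  | zero => simp [u_eq]
  | succ p ih =>
    obtain ⟨h0, h1⟩ := ih
    have hp : (0 : ℝ) < ∏ i ∈ range (2 * p + 1), ((i : ℝ) + 1) :=
      prod_pos fun i _ => by positivity
    have e : u (p + 1) = u p * ((2 * p + 3) / (2 * p + 2)) := by
      rw [u_eq, u_eq, show 2 * (p + 1) = 2 * p + 2 by ring, prod_range_succ, prod_range_succ _ (2 * p + 2),
        prod_range_succ _ (2 * p + 1)]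
      have h3 : (2 * (p : ℝ) + 2) ≠ 0 := by positivity
      push_cast
      field_simp
      ring_nf
    constructor
    · rw [e]
      exact mul_nonneg h0 (by positivity)
    · rw [e, mul_pow]
      have h3 : (0 : ℝ) < 2 * p + 2 := by positivity
      have h4 : ((4 : ℝ) * p + 3) / 3 * ((2 * p + 3) / (2 * p + 2)) ^ 2 ≤ (4 * ((p : ℝ) + 1) + 3) / 3 := by
        rw [div_pow, div_mul_div_comm, div_le_div_iff₀ (by positivity) (by positivity)]
        nlinarith [sq_nonneg (p : ℝ)]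
      push_cast
      refine le_trans (mul_le_mul_of_nonneg_right h1 (by positivity)) h4

/-- the supremum norm of the pseudo-density -/
theorem D_le (t : ℕ) (ht : 1 ≤ t) (z : Fin (4 * t + 1) → Bool) :
    |2 ^ (4 * t + 1) * D t z| ≤ 2 * √(t : ℝ) := by
  have hden := den_pos t (4 * t + 1) le_rfl
  have hu : P t (2 * t) * P t (2 * t + 1) / (∏ i ∈ range (4 * t + 1), ((4 * t + 1 : ℝ) - i))
      * 2 ^ (4 * t + 1) = u (2 * t) := by
    unfold u P
    have e1 : 0 ≤ ∏ i ∈ range (2 * t), ((2 * t + 1 / 2 : ℝ) - i) := by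
      refine prod_nonneg fun i hi => ?_
      have h := mem_range.mp hi
      have : (i : ℝ) ≤ 2 * t := by exact_mod_cast h.le
      linarith
    have e2 : 0 ≤ ∏ i ∈ range (2 * t + 1), ((2 * t + 1 / 2 : ℝ) - i) := by
      refine prod_nonneg fun i hi => ?_
      have h := mem_range.mp hi
      have : (i : ℝ) ≤ 2 * t := by exact_mod_cast Nat.lt_succ_iff.mp h
      linarith
    rw [abs_of_nonneg e1, abs_of_nonneg e2]
    have e3 : 2 * (2 * t) + 1 = 4 * t + 1 := by ring
    rw [e3]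
    push_cast
    have e4 : (2 * (2 * (t : ℝ)) + 1) = 4 * t + 1 := by ring
    rw [e4]
    ring
  have hmid : ∀ a b : ℕ, a + b = 4 * t + 1 → P t a * P t b ≤ P t (2 * t) * P t (2 * t + 1) := by
    intro a b hab
    rcases le_or_gt a (2 * t) with h | h
    · have := P_mid t (2 * t - a) (by omega)
      rwa [show 2 * t - (2 * t - a) = a by omega, show 2 * t + 1 + (2 * t - a) = b by omega] at this
    · have := P_mid t (2 * t - b) (by omega)
      rw [show 2 * t - (2 * t - b) = b by omega, show 2 * t + 1 + (2 * t - b) = a by omega] at this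
      rw [mul_comm]
      exact this
  have h1 : |2 ^ (4 * t + 1) * D t z| ≤ u (2 * t) := by
    unfold D
    set C := (zsEquiv (4 * t + 1) z).card with hC
    have hCle : C ≤ 4 * t + 1 := by
      have := card_le_univ (zsEquiv (4 * t + 1) z)
      simpa using this
    rw [abs_mul, abs_of_pos (by positivity : (0 : ℝ) < 2 ^ (4 * t + 1)), abs_w _ _ _ (by omega), ← hu,
      mul_comm]
    apply mul_le_mul_of_nonneg_right _ (by positivity)
    exact div_le_div_of_nonneg_right (hmid _ _ (by omega)) hden.le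
  obtain ⟨h2, h3⟩ := u_sq (2 * t)
  refine h1.trans ?_
  have ht' : (1 : ℝ) ≤ t := by exact_mod_cast ht
  have h4 : u (2 * t) ^ 2 ≤ (2 * √(t : ℝ)) ^ 2 := by
    rw [mul_pow, Real.sq_sqrt (by positivity)]
    push_cast at h3
    linarith
  exact le_of_sq_le_sq h4 (by positivity)

end Pool.Agent.Helper68.SDX
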