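import Pool.Agent.Helper55.SDP.RE

set_option autoImplicit false

/-!
# Rescaling a positive semidefinite factorization (average of the traces)
-/

namespace Pool.Agent.Helper68.SDX

open Matrix Finset Pool.Agent.Helper55.SDP

theorem rescale {F X : Type} [Fintype F] [Nonempty F] [Fintype X] {r : ℕ} (hr : 1 ≤ r)
    (P : F → Matrix (Fin r) (Fin r) ℝ) (Q : X → Matrix (Fin r) (Fin r) ℝ) {b : ℝ} (hb : 0 < b)
    (hP : ∀ φ, (P φ).PosSemidef) (hQ : ∀ x, (Q x).PosSemidef)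
    (hPQ : ∀ φ x, (P φ * Q x).trace ≤ b) :
    ∃ (P' : F → Matrix (Fin r) (Fin r) ℝ) (Q' : X → Matrix (Fin r) (Fin r) ℝ),
      (∀ φ, (P' φ).PosSemidef) ∧ (∀ x, (Q' x).PosSemidef) ∧
      (∀ φ x, (P' φ * Q' x).trace = (P φ * Q x).trace) ∧
      (∀ φ, (((r : ℝ) ^ 4 * b) • (1 : Matrix (Fin r) (Fin r) ℝ) - P' φ).PosSemidef) ∧
      ((Fintype.card F : ℝ) • (1 : Matrix (Fin r) (Fin r) ℝ) - ∑ φ, P' φ).PosSemidef ∧
      (∀ x, ((b + 1) • (1 : Matrix (Fin r) (Fin r) ℝ) - Q' x).PosSemidef) ∧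
      ∀ x, (Q' x).trace ≤ ((Fintype.card F : ℝ))⁻¹ * ∑ φ, (P φ * Q x).trace + 1 := by
  choose V hV using fun φ => psd_decomp (hP φ)
  choose U hU using fun x => psd_decomp (hQ x)
  have hF : (0 : ℝ) < Fintype.card F := by exact_mod_cast Fintype.card_pos
  have hr1 : (1 : ℝ) ≤ r := by exact_mod_cast hr
  have hr0 : (0 : ℝ) < r := by linarith
  -- products of rows
  have hVU : ∀ φ x i j, (∑ l, U x j l * V φ i l) ^ 2 ≤ b := by
    intro φ x i j
    have h1 : (P φ * Q x).trace = ∑ j, ∑ i, ((U x * (V φ)ᵀ) j i) ^ 2 := by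
      have e1 : (P φ * Q x).trace = ((U x * (V φ)ᵀ)ᵀ * (U x * (V φ)ᵀ)).trace := by
        rw [hV, hU, transpose_mul, transpose_transpose,
          Matrix.trace_mul_comm (V φ * (U x)ᵀ) (U x * (V φ)ᵀ)]
        rw [show (V φ)ᵀ * V φ * ((U x)ᵀ * U x) = ((V φ)ᵀ * V φ * (U x)ᵀ) * U x by
          simp only [Matrix.mul_assoc], Matrix.trace_mul_comm ((V φ)ᵀ * V φ * (U x)ᵀ) (U x)]
        simp only [Matrix.mul_assoc]
      rw [e1, trace_tt]
    have h2 : ((U x * (V φ)ᵀ) j i) ^ 2 ≤ ∑ j, ∑ i, ((U x * (V φ)ᵀ) j i) ^ 2 := by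
      have h3 := Finset.single_le_sum (f := fun i => ((U x * (V φ)ᵀ) j i) ^ 2)
        (fun i _ => sq_nonneg _) (Finset.mem_univ i)
      have h4 := Finset.single_le_sum (f := fun j => ∑ i, ((U x * (V φ)ᵀ) j i) ^ 2)
        (fun j _ => Finset.sum_nonneg fun i _ => sq_nonneg _) (Finset.mem_univ j)
      exact h3.trans h4
    rw [← h1] at h2
    have h5 : (U x * (V φ)ᵀ) j i = ∑ l, U x j l * V φ i l := by
      simp [mul_apply]
    rw [← h5]
    exact h2.trans (hPQ φ x)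
  -- the small number
  obtain ⟨ε, hε, hεU⟩ : ∃ ε : ℝ, 0 < ε ∧ ∀ x j k, (ε * U x j k) ^ 2 ≤ b := by
    obtain ⟨M, hM⟩ : ∃ M : ℝ, M = ∑ x, ∑ j, ∑ k, U x j k ^ 2 := ⟨_, rfl⟩
    have hM0 : 0 ≤ M := by
      rw [hM]
      positivity
    have hle : ∀ x j k, U x j k ^ 2 ≤ M := by
      intro x j k
      have h3 := Finset.single_le_sum (f := fun k => U x j k ^ 2)
        (fun i _ => sq_nonneg _) (Finset.mem_univ k)
      have h4 := Finset.single_le_sum (f := fun j => ∑ k, U x j k ^ 2)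
        (fun j _ => Finset.sum_nonneg fun i _ => sq_nonneg _) (Finset.mem_univ j)
      have h5 := Finset.single_le_sum (f := fun x => ∑ j, ∑ k, U x j k ^ 2)
        (fun x _ => Finset.sum_nonneg fun j _ => Finset.sum_nonneg fun i _ => sq_nonneg _)
        (Finset.mem_univ x)
      rw [hM]
      exact (h3.trans h4).trans h5
    refine ⟨Real.sqrt (b / (M + 1)), Real.sqrt_pos.2 (by positivity), fun x j k => ?_⟩
    rw [mul_pow, Real.sq_sqrt (by positivity), div_mul_eq_mul_div, div_le_iff₀ (by positivity)]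
    exact mul_le_mul_of_nonneg_left ((hle x j k).trans (by linarith)) hb.le
  -- the vectors
  obtain ⟨w, hw⟩ : ∃ w : (F × Fin r) ⊕ Fin r → Fin r → ℝ,
      w = Sum.elim (fun q => V q.1 q.2) (fun k => Pi.single k ε) := ⟨_, rfl⟩
  have hdet : ∃ s : Fin r → (F × Fin r) ⊕ Fin r, (Matrix.of fun i => w (s i)).det ≠ 0 := by
    refine ⟨fun i => Sum.inr i, ?_⟩
    have h1 : (Matrix.of fun i => w (Sum.inr i)) = diagonal fun _ : Fin r => ε := by
      ext i k
      rw [hw]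
      simp only [Sum.elim_inr, of_apply, diagonal_apply, Pi.single_apply]
      by_cases h : i = k
      · simp [h]
      · simp [h, Ne.symm h]
    rw [h1, det_diagonal, Finset.prod_const]
    exact pow_ne_zero _ hε.ne'
  obtain ⟨s, hne, hcoef⟩ := exists_basis w hdet
  obtain ⟨B1, hB1⟩ : ∃ B1 : Mt r, B1 = Matrix.of fun i => w (s i) := ⟨_, rfl⟩
  rw [← hB1] at hne hcoef
  have hu1 : IsUnit B1.det := isUnit_iff_ne_zero.2 hne
  have hUB : ∀ x j k, (∑ l, U x j l * B1 k l) ^ 2 ≤ b := by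
    intro x j k
    have h1 : ∀ l, B1 k l = w (s k) l := fun l => by rw [hB1]; rfl
    simp only [h1]
    rcases s k with ⟨φ, i⟩ | k'
    · rw [hw]
      exact hVU φ x i j
    · rw [hw]
      simp only [Sum.elim_inr, Pi.single_apply, mul_ite, mul_zero, Finset.sum_ite_eq',
        Finset.mem_univ, if_true]
      rw [mul_comm]
      exact hεU x j k'
  -- first rescaling
  have hP1tr : ∀ φ, (cP B1 (P φ)).trace ≤ (r : ℝ) ^ 2 := by
    intro φ
    have h1 : cP B1 (P φ) = (V φ * B1⁻¹)ᵀ * (V φ * B1⁻¹) := by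
      unfold cP
      rw [hV, transpose_mul]
      simp only [Matrix.mul_assoc]
    rw [h1, trace_tt]
    have h2 : ∀ i k, ((V φ * B1⁻¹) i k) ^ 2 ≤ 1 := by
      intro i k
      have h3 := hcoef (Sum.inl (φ, i)) k
      rw [hw] at h3
      simp only [Sum.elim_inl] at h3
      rw [← vecMul_row] at h3
      rw [← sq_abs]
      exact pow_le_one₀ (abs_nonneg _) h3
    calc ∑ i, ∑ j, ((V φ * B1⁻¹) i j) ^ 2 ≤ ∑ _i : Fin r, ∑ _j : Fin r, (1 : ℝ) :=
          Finset.sum_le_sum fun i _ => Finset.sum_le_sum fun j _ => h2 i j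
      _ = (r : ℝ) ^ 2 := by
          simp
          ring
  have hQ1tr : ∀ x, (cQ B1 (Q x)).trace ≤ (r : ℝ) ^ 2 * b := by
    intro x
    have h1 : cQ B1 (Q x) = (U x * B1ᵀ)ᵀ * (U x * B1ᵀ) := by
      unfold cQ
      rw [hU, transpose_mul, transpose_transpose]
      simp only [Matrix.mul_assoc]
    rw [h1, trace_tt]
    calc ∑ j, ∑ k, ((U x * B1ᵀ) j k) ^ 2 ≤ ∑ _j : Fin r, ∑ _k : Fin r, b := by
          refine Finset.sum_le_sum fun j _ => Finset.sum_le_sum fun k _ => ?_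
          have h2 : (U x * B1ᵀ) j k = ∑ l, U x j l * B1 k l := by simp [mul_apply]
          rw [h2]
          exact hUB x j k
      _ = (r : ℝ) ^ 2 * b := by
          simp
          ring
  have hP1 : ∀ φ, (cP B1 (P φ)).PosSemidef := fun φ => cP_psd (hP φ) B1
  have hQ1 : ∀ x, (cQ B1 (Q x)).PosSemidef := fun x => cQ_psd (hQ x) B1
  have hPQ1 : ∀ φ x, (cP B1 (P φ) * cQ B1 (Q x)).trace = (P φ * Q x).trace :=
    fun φ x => cPcQ_trace hu1 _ _
  obtain ⟨P1, hP1d⟩ : ∃ P1 : F → Mt r, P1 = fun φ => cP B1 (P φ) := ⟨_, rfl⟩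
  obtain ⟨Q1, hQ1d⟩ : ∃ Q1 : X → Mt r, Q1 = fun x => cQ B1 (Q x) := ⟨_, rfl⟩
  have hP1' : ∀ φ, (P1 φ).PosSemidef := fun φ => by rw [hP1d]; exact hP1 φ
  have hQ1' : ∀ x, (Q1 x).PosSemidef := fun x => by rw [hQ1d]; exact hQ1 x
  have hPQ1' : ∀ φ x, (P1 φ * Q1 x).trace = (P φ * Q x).trace := fun φ x => by
    rw [hP1d, hQ1d]; exact hPQ1 φ x
  have hP1tr' : ∀ φ, (P1 φ).trace ≤ (r : ℝ) ^ 2 := fun φ => by rw [hP1d]; exact hP1tr φ
  have hQ1tr' : ∀ x, (Q1 x).trace ≤ (r : ℝ) ^ 2 * b := fun x => by rw [hQ1d]; exact hQ1tr x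
  -- second rescaling
  obtain ⟨W, hW⟩ : ∃ W : Mt r, W = ((Fintype.card F : ℝ))⁻¹ • ∑ φ, P1 φ +
      ((r : ℝ) ^ 2 * b)⁻¹ • (1 : Mt r) := ⟨_, rfl⟩
  have hsum : (∑ φ, P1 φ).PosSemidef := posSemidef_sum _ fun φ _ => hP1' φ
  have hWpd : W.PosDef := by
    rw [hW]
    exact (PosDef.one.smul (by positivity)).posSemidef_add (hsum.smul (by positivity))
  obtain ⟨B, hB⟩ := psd_decomp hWpd.posSemidef
  have huB : IsUnit B.det := by
    have h1 : IsUnit W.det := (isUnit_iff_isUnit_det W).1 hWpd.isUnit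
    rw [hB, det_mul, det_transpose] at h1
    exact isUnit_of_mul_isUnit_left h1
  have hcW : cP B W = 1 := by rw [hB]; exact cP_self huB
  have hQtr' : ∀ x, (cQ B (Q1 x)).trace
      ≤ ((Fintype.card F : ℝ))⁻¹ * ∑ φ, (P φ * Q x).trace + 1 := by
    intro x
    have h1 : (cQ B (Q1 x)).trace = (W * Q1 x).trace := by
      unfold cQ
      rw [Matrix.trace_mul_comm, hB, ← Matrix.mul_assoc]
    rw [h1, hW, Matrix.add_mul, trace_add, Matrix.smul_mul, trace_smul, Matrix.sum_mul, trace_sum,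
      Matrix.smul_mul, trace_smul, Matrix.one_mul, smul_eq_mul, smul_eq_mul]
    have h4 : ((r : ℝ) ^ 2 * b)⁻¹ * (Q1 x).trace ≤ 1 := by
      rw [inv_mul_le_iff₀ (by positivity), mul_one]
      exact hQ1tr' x
    simp only [hPQ1']
    linarith
  have hQtr : ∀ x, (cQ B (Q1 x)).trace ≤ b + 1 := by
    intro x
    refine (hQtr' x).trans ?_
    have h2 : ∑ φ, (P φ * Q x).trace ≤ (Fintype.card F : ℝ) * b := by
      calc ∑ φ, (P φ * Q x).trace ≤ ∑ _φ : F, b :=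
            Finset.sum_le_sum fun φ _ => hPQ φ x
        _ = _ := by simp
    have h3 : ((Fintype.card F : ℝ))⁻¹ * ∑ φ, (P φ * Q x).trace ≤ b := by
      rw [inv_mul_le_iff₀ hF]
      exact h2
    linarith
  refine ⟨fun φ => cP B (P1 φ), fun x => cQ B (Q1 x), fun φ => cP_psd (hP1' φ) B,
    fun x => cQ_psd (hQ1' x) B, fun φ x => ?_, fun φ => ?_, ?_, fun x => ?_, fun x => ?_⟩
  · rw [cPcQ_trace huB, hPQ1']
  · have h1 : ((r : ℝ) ^ 4 * b) • (1 : Mt r) - cP B (P1 φ)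
        = cP B (((r : ℝ) ^ 4 * b) • W - P1 φ) := by
      rw [cP_sub, cP_smul, hcW]
    rw [h1]
    refine cP_psd ?_ B
    have h2 : ((r : ℝ) ^ 4 * b) • W - P1 φ
        = ((r : ℝ) ^ 4 * b * ((Fintype.card F : ℝ))⁻¹) • ∑ φ, P1 φ +
        ((r : ℝ) ^ 2 • (1 : Mt r) - P1 φ) := by
      rw [hW, smul_add, smul_smul, smul_smul]
      have : (r : ℝ) ^ 4 * b * ((r : ℝ) ^ 2 * b)⁻¹ = (r : ℝ) ^ 2 := by
        field_simp
      rw [this]
      abel
    rw [h2]
    exact (hsum.smul (by positivity)).add (psd_le_mul (le_trace (hP1' φ)) (hP1tr' φ))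
  · have h1 : (Fintype.card F : ℝ) • (1 : Mt r) - ∑ φ, cP B (P1 φ) =
        cP B ((Fintype.card F : ℝ) • W - ∑ φ, P1 φ) := by
      rw [cP_sub, cP_smul, hcW, cP_sum]
    rw [h1]
    refine cP_psd ?_ B
    have h2 : (Fintype.card F : ℝ) • W - ∑ φ, P1 φ =
        ((Fintype.card F : ℝ) * ((r : ℝ) ^ 2 * b)⁻¹) • (1 : Mt r) := by
      rw [hW, smul_add, smul_smul, smul_smul, mul_inv_cancel₀ hF.ne', one_smul]
      abel
    rw [h2]
    exact PosSemidef.one.smul (by positivity)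
  · exact psd_le_mul (le_trace (cQ_psd (hQ1' x) B)) (hQtr x)
  · exact hQtr' x

end Pool.Agent.Helper68.SDX
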