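import Pool.Agent.Helper68.SDX.Core
import Pool.Agent.Helper68.SDX.Knap
import Pool.Agent.Helper68.SDX.Re

set_option autoImplicit false

/-!
# The matrix theorem with explicit constants
-/

namespace Pool.Agent.Helper68.SDX

open Matrix Finset Pool.Agent.Helper68.SDP

theorem pow_five_le (t : ℕ) (ht : 64 ≤ t) : 262144 * t ^ 5 ≤ 2 ^ t := by
  induction t, ht using Nat.le_induction with
  | base => norm_num
  | succ t ht ih =>
    have h1 : (t + 1) ^ 5 ≤ 2 * t ^ 5 := by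
      have e0 : 1 ≤ t ^ 4 := Nat.one_le_pow _ _ (by omega)
      have e1 : t ≤ t ^ 4 := Nat.le_self_pow (by norm_num) t
      have e2 : t ^ 2 ≤ t ^ 4 := Nat.pow_le_pow_right (by omega) (by norm_num)
      have e3 : t ^ 3 ≤ t ^ 4 := Nat.pow_le_pow_right (by omega) (by norm_num)
      have e5 : 64 * t ^ 4 ≤ t ^ 5 := by
        calc 64 * t ^ 4 ≤ t * t ^ 4 := Nat.mul_le_mul_right _ ht
          _ = t ^ 5 := by ring
      have e6 : (t + 1) ^ 5 = t ^ 5 + 5 * t ^ 4 + 10 * t ^ 3 + 10 * t ^ 2 + 5 * t + 1 := by ring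
      rw [e6]
      omega
    calc 262144 * (t + 1) ^ 5 ≤ 262144 * (2 * t ^ 5) := Nat.mul_le_mul_left _ h1
      _ = 2 * (262144 * t ^ 5) := by ring
      _ ≤ 2 * 2 ^ t := Nat.mul_le_mul_left _ ih
      _ = 2 ^ (t + 1) := by ring

/-- the average of the traces -/
theorem trace_avg {t N r : ℕ} (hN : 1 ≤ N) {e₀ : ℝ}
    (P : (Fin (4 * t + 1) → Fin N) → Matrix (Fin r) (Fin r) ℝ)
    (Q : (Fin (4 * t + 1) × Fin N → Bool) → Matrix (Fin r) (Fin r) ℝ)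
    (hPQ : ∀ φ x, |(P φ * Q x).trace - fk t (sel φ x)| ≤ e₀) :
    ((Fintype.card (Fin (4 * t + 1) → Fin N) : ℝ))⁻¹ * ∑ x, ∑ φ, (P φ * Q x).trace
      ≤ (t + e₀) * Fintype.card (Fin (4 * t + 1) × Fin N → Bool) := by
  classical
  have : Nonempty (Fin (4 * t + 1) → Fin N) := ⟨fun _ => ⟨0, by omega⟩⟩
  set nF : ℝ := (Fintype.card (Fin (4 * t + 1) → Fin N) : ℝ) with hnF
  have hnF0 : 0 < nF := Nat.cast_pos.mpr Fintype.card_pos
  set nX : ℝ := (Fintype.card (Fin (4 * t + 1) × Fin N → Bool) : ℝ) with hnX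
  rw [inv_mul_le_iff₀ hnF0, sum_comm]
  have h1 : ∀ φ : Fin (4 * t + 1) → Fin N, ∑ x, (P φ * Q x).trace ≤ (t + e₀) * nX := by
    intro φ
    have h2 : ∀ x, (P φ * Q x).trace ≤ fk t (sel φ x) + e₀ := by
      intro x
      have := (abs_le.mp (hPQ φ x)).2
      linarith
    refine (sum_le_sum fun x _ => h2 x).trans ?_
    rw [sum_add_distrib, sum_const, card_univ, nsmul_eq_mul]
    have h4 := sum_sel φ (fk t)
    rw [sum_fk] at h4
    have h5 : ∑ x, fk t (sel φ x) = nX * t := by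
      have h6 : (2 : ℝ) ^ (4 * t + 1) * ∑ x, fk t (sel φ x) = 2 ^ (4 * t + 1) * (nX * t) := by
        rw [h4, ← hnX]; ring
      exact mul_left_cancel₀ (by positivity) h6
    rw [h5]
    change nX * t + nX * e₀ ≤ _
    linarith
  refine (sum_le_sum fun φ _ => h1 φ).trans ?_
  rw [sum_const, card_univ, nsmul_eq_mul]

/-- the matrix theorem, parameters to be chosen -/
theorem lrs_par {t N r K : ℕ} (ht : 1 ≤ t) (hN : 1 ≤ N) (hr : 1 ≤ r) {D₀ b e₀ s : ℝ}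
    (hD₀ : D₀ = 2 * √(t : ℝ)) (hb : b = 2 * t * (2 * t + 1) + 1)
    (he1 : e₀ ≤ 1) (he : D₀ * e₀ ≤ 1 / 8)
    (P : (Fin (4 * t + 1) → Fin N) → Matrix (Fin r) (Fin r) ℝ)
    (Q : (Fin (4 * t + 1) × Fin N → Bool) → Matrix (Fin r) (Fin r) ℝ)
    (hP : ∀ φ, (P φ).PosSemidef) (hQ : ∀ x, (Q x).PosSemidef)
    (hPQ : ∀ φ x, |(P φ * Q x).trace - fk t (sel φ x)| ≤ e₀)
    {ε : ℝ} (hε : ε = 1 / (8 * (t + 2)))
    (hs0 : 0 ≤ s) (hs1 : s ≤ 1) (hs : s ^ 2 * (D₀ + ε / 2) / 2 ≤ ε / 4)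
    (hG : (b + 1) * ((D₀ + ε / 2) * r) ≤ (Real.exp (K * s) / 2) ^ 2 * (ε / 4 * (1 / (8 * D₀)))) :
    ε / 4 * (N : ℝ) ^ (t + 1) ≤ D₀ * (2 * (ε / (8 * D₀)) + 1 + 1 / (ε / (8 * D₀)))
      * (((r : ℝ) ^ 4 * b) * (2 ^ (4 * t + 1) * (K : ℝ) ^ (t + 1))) := by
  classical
  have : Nonempty (Fin (4 * t + 1) → Fin N) := ⟨fun _ => ⟨0, by omega⟩⟩
  have ht' : (1 : ℝ) ≤ t := by exact_mod_cast ht
  have hr' : (1 : ℝ) ≤ r := by exact_mod_cast hr
  have hsqrt : 0 < √(t : ℝ) := Real.sqrt_pos.mpr (by linarith)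
  have hD₀0 : 0 < D₀ := by rw [hD₀]; positivity
  have hε0 : 0 < ε := by rw [hε]; positivity
  have hb0 : 0 < b := by rw [hb]; positivity
  set D : (Fin (4 * t + 1) → Bool) → ℝ := fun z => 2 ^ (4 * t + 1) * Pool.Agent.Helper37.SDP.D t z with hD
  have hps : Pseudo (4 * t + 1) t D := by
    intro q hq
    have h := Pool.Agent.Helper37.SDP.pseudo t q hq
    have e : ∑ z, D z * q z ^ 2 = 2 ^ (4 * t + 1) * ∑ z, Pool.Agent.Helper37.SDP.D t z * q z ^ 2 := by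
      rw [mul_sum]
      exact sum_congr rfl fun z _ => by simp only [hD]; ring
    rw [e]
    positivity
  have hDle : ∀ z, |D z| ≤ D₀ := fun z => by rw [hD₀]; exact D_le t ht z
  have hDf : ∑ z, D z * fk t z = -(2 ^ (4 * t + 1) / 4) := by
    have e : ∑ z, D z * fk t z = 2 ^ (4 * t + 1) * ∑ z, Pool.Agent.Helper37.SDP.D t z * fk t z := by
      rw [mul_sum]
      exact sum_congr rfl fun z _ => by simp only [hD]; ring
    rw [e, D_fk t ht]
    ring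
  obtain ⟨P', Q', hP', hQ', hPQ', hPr, hPs, hQr, hQs⟩ := rescale hr P Q hb0 hP hQ (fun φ x => by
      have h1 := (abs_le.mp (hPQ φ x)).2
      have h2 := fk_le t (sel φ x)
      rw [hb]
      linarith)
  set nF : ℝ := (Fintype.card (Fin (4 * t + 1) → Fin N) : ℝ) with hnF
  have hnF0 : 0 < nF := Nat.cast_pos.mpr Fintype.card_pos
  set nX : ℝ := (Fintype.card (Fin (4 * t + 1) × Fin N → Bool) : ℝ) with hnX
  have hnX0 : 0 < nX := Nat.cast_pos.mpr Fintype.card_pos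
  set T : ℝ := ∑ x, (Q' x).trace with hT
  -- the expectation
  have hexp : ∑ φ, ∑ x, D (sel φ x) * (P' φ * Q' x).trace ≤ -(1 / 8 * (nF * nX)) := by
    have h1 : ∀ φ, ∑ x, D (sel φ x) * (P' φ * Q' x).trace ≤ -(1 / 8 * nX) := by
      intro φ
      have h2 : ∀ x, D (sel φ x) * (P' φ * Q' x).trace
          ≤ D (sel φ x) * fk t (sel φ x) + D₀ * e₀ := by
        intro x
        rw [hPQ']
        have h3 : D (sel φ x) * ((P φ * Q x).trace - fk t (sel φ x)) ≤ D₀ * e₀ := by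
          refine (le_abs_self _).trans ?_
          rw [abs_mul]
          exact mul_le_mul (hDle _) (hPQ φ x) (abs_nonneg _) hD₀0.le
        linarith
      refine (sum_le_sum fun x _ => h2 x).trans ?_
      rw [sum_add_distrib, sum_const, card_univ, nsmul_eq_mul]
      have h4 := sum_sel φ fun z => D z * fk t z
      have h5 : ∑ x, D (sel φ x) * fk t (sel φ x) = -(1 / 4 * nX) := by
        have h6 : (2 : ℝ) ^ (4 * t + 1) * ∑ x, D (sel φ x) * fk t (sel φ x) = 2 ^ (4 * t + 1) * -(1 / 4 * nX) := by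
          rw [h4, hDf, ← hnX]
          ring
        exact mul_left_cancel₀ (by positivity) h6
      rw [h5]
      have h7 := mul_le_mul_of_nonneg_left he hnX0.le
      change -(1 / 4 * nX) + nX * (D₀ * e₀) ≤ _
      linarith
    refine (sum_le_sum fun φ _ => h1 φ).trans ?_
    rw [sum_const, card_univ, nsmul_eq_mul]
    change nF * -(1 / 8 * nX) ≤ _
    linarith
  -- bounds for the total trace
  have hTup : T ≤ (t + 2) * nX := by
    have h1 := trace_avg hN P Q hPQ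
    have h2 : T ≤ ∑ x, (nF⁻¹ * ∑ φ, (P φ * Q x).trace + 1) := sum_le_sum fun x _ => hQs x
    rw [sum_add_distrib, ← mul_sum, sum_const, card_univ, nsmul_eq_mul, mul_one] at h2
    have h3 : (t + e₀) * nX ≤ (t + 1) * nX :=
      mul_le_mul_of_nonneg_right (by linarith) hnX0.le
    change T ≤ nF⁻¹ * ∑ x, ∑ φ, (P φ * Q x).trace + nX at h2
    change nF⁻¹ * ∑ x, ∑ φ, (P φ * Q x).trace ≤ (t + e₀) * nX at h1
    linarith
  have hTlow : 1 / 8 * nX ≤ D₀ * T := by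
    have h1 : -(D₀ * (nF * T)) ≤ ∑ φ, ∑ x, D (sel φ x) * (P' φ * Q' x).trace := by
      have h2 : ∀ φ x, -(D₀ * (P' φ * Q' x).trace) ≤ D (sel φ x) * (P' φ * Q' x).trace := by
        intro φ x
        have h3 := trace_mul_nonneg (hP' φ) (hQ' x)
        have h4 := (abs_le.mp (hDle (sel φ x))).1
        have := mul_le_mul_of_nonneg_right h4 h3
        linarith
      have h5 := sum_le_sum fun φ (_ : φ ∈ (univ : Finset (Fin (4 * t + 1) → Fin N))) =>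
        sum_le_sum fun x (_ : x ∈ (univ : Finset (Fin (4 * t + 1) × Fin N → Bool))) => h2 φ x
      simp only [sum_neg_distrib, ← mul_sum] at h5
      refine le_trans ?_ h5
      have h6 : ∑ φ, ∑ x, (P' φ * Q' x).trace ≤ nF * T := by
        rw [sum_comm]
        have h7 : ∀ x, ∑ φ, (P' φ * Q' x).trace ≤ nF * (Q' x).trace := by
          intro x
          rw [← trace_sum, ← Matrix.sum_mul]
          exact trace_mul_le hPs (hQ' x)
        refine (sum_le_sum fun x _ => h7 x).trans ?_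
        rw [← mul_sum]
      have := mul_le_mul_of_nonneg_left h6 hD₀0.le
      linarith
    have h8 : nF * (1 / 8 * nX) ≤ nF * (D₀ * T) := by linarith
    exact le_of_mul_le_mul_left h8 hnF0
  have hT0 : 0 < T := by
    have h1 : 0 < 1 / 8 * nX := by positivity
    have h2 : 0 < D₀ * T := h1.trans_le hTlow
    exact (mul_pos_iff_of_pos_left hD₀0).mp h2
  have hPQ'' : ∑ φ, ∑ x, D (sel φ x) * (P' φ * Q' x).trace ≤ -(ε * (nF * T)) := by
    refine hexp.trans ?_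
    have h1 : ε * (nF * T) ≤ ε * (nF * ((t + 2) * nX)) := by
      apply mul_le_mul_of_nonneg_left _ hε0.le
      exact mul_le_mul_of_nonneg_left hTup hnF0.le
    have h2 : ε * (nF * ((t + 2) * nX)) = 1 / 8 * (nF * nX) := by
      rw [hε]; field_simp
    linarith
  -- the polynomial
  obtain ⟨p, hp, hp1, hp2⟩ := exists_poly K (θ := D₀ + ε / 2) (θ' := D₀ + 3 * ε / 4) (s := s)
    (by positivity) hs0 hs1 (by linarith)
  have hbig : (b + 1) * ((D₀ + ε / 2) * (r * nX))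
      ≤ (Real.exp (K * s) / 2) ^ 2 * ((D₀ + ε - (D₀ + 3 * ε / 4)) * T) := by
    have h1 := mul_le_mul_of_nonneg_right hG hnX0.le
    have h2 : ε / 4 * (1 / (8 * D₀)) * nX ≤ ε / 4 * T := by
      have h3 : 1 / (8 * D₀) * nX ≤ T := by
        rw [div_mul_eq_mul_div, div_le_iff₀ (by positivity)]
        linarith
      calc ε / 4 * (1 / (8 * D₀)) * nX = ε / 4 * (1 / (8 * D₀) * nX) := by ring
        _ ≤ _ := mul_le_mul_of_nonneg_left h3 (by positivity)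
    calc (b + 1) * ((D₀ + ε / 2) * (r * nX)) = (b + 1) * ((D₀ + ε / 2) * r) * nX := by ring
      _ ≤ (Real.exp (K * s) / 2) ^ 2 * (ε / 4 * (1 / (8 * D₀))) * nX := h1
      _ = (Real.exp (K * s) / 2) ^ 2 * (ε / 4 * (1 / (8 * D₀)) * nX) := by ring
      _ ≤ (Real.exp (K * s) / 2) ^ 2 * (ε / 4 * T) :=
          mul_le_mul_of_nonneg_left h2 (sq_nonneg _)
      _ = _ := by ring
  exact core hN D hps hD₀0 hε0 (by positivity) (by positivity) (by positivity) hDle P' Q' hP' hQ' hPr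
    hPs hQr hT0 hPQ'' hp hp1 hp2 (by linarith) (by linarith) hbig

/-- Lower bound for the size of approximate positive semidefinite factorizations. -/
theorem lrs_exp {q t r : ℕ} (htq : t = q ^ 4) (hq : 3 ≤ q) (hr : 1 ≤ r)
    (P : (Fin (4 * t + 1) → Fin (768 * q ^ 7)) → Matrix (Fin r) (Fin r) ℝ)
    (Q : (Fin (4 * t + 1) × Fin (768 * q ^ 7) → Bool) → Matrix (Fin r) (Fin r) ℝ)
    (hP : ∀ φ, (P φ).PosSemidef) (hQ : ∀ x, (Q x).PosSemidef)
    (hPQ : ∀ φ x, |(P φ * Q x).trace - fk t (sel φ x)| ≤ 1 / (16 * q ^ 2)) :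
    2 ^ t ≤ r ^ 4 := by
  have ht64 : 64 ≤ t := by
    rw [htq]
    calc 64 ≤ 3 ^ 4 := by norm_num
      _ ≤ q ^ 4 := Nat.pow_le_pow_left hq 4
  have h5 := pow_five_le t ht64
  by_contra hlt
  push Not at hlt
  have hq' : (3 : ℝ) ≤ q := by exact_mod_cast hq
  have hq0 : (0 : ℝ) < q := by linarith
  have ht' : (64 : ℝ) ≤ t := by exact_mod_cast ht64
  have htq' : (t : ℝ) = (q : ℝ) ^ 4 := by rw [htq]; push_cast; ring
  have hsq : √(t : ℝ) = (q : ℝ) ^ 2 := by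
    rw [htq', show (q : ℝ) ^ 4 = ((q : ℝ) ^ 2) ^ 2 by ring, Real.sqrt_sq (by positivity)]
  have hr' : (1 : ℝ) ≤ r := by exact_mod_cast hr
  have hq2 : (9 : ℝ) ≤ (q : ℝ) ^ 2 := by nlinarith
  obtain ⟨ε, hε⟩ : ∃ ε : ℝ, ε = 1 / (8 * ((t : ℝ) + 2)) := ⟨_, rfl⟩
  have hε0 : 0 < ε := by rw [hε]; positivity
  have hε1 : ε ≤ 1 := by
    rw [hε, div_le_one (by positivity)]
    linarith
  have hε2 : 1 / (24 * (q : ℝ) ^ 4) ≤ ε := by
    rw [hε, ← htq']
    apply one_div_le_one_div_of_le (by positivity)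
    linarith
  have h5' : 262144 * (t : ℝ) ^ 5 ≤ 2 ^ t := by exact_mod_cast h5
  have hrt : (r : ℝ) ^ 4 < 2 ^ t := by exact_mod_cast hlt
  have hrr : (r : ℝ) ≤ (r : ℝ) ^ 4 := by
    have := pow_le_pow_right₀ hr' (by norm_num : 1 ≤ 4)
    rwa [pow_one] at this
  obtain ⟨b, hb⟩ : ∃ b : ℝ, b = 2 * t * (2 * t + 1) + 1 := ⟨_, rfl⟩
  have hb1 : b ≤ 5 * (t : ℝ) ^ 2 := by rw [hb]; nlinarith
  have hb2 : b + 1 ≤ 5 * (t : ℝ) ^ 2 := by rw [hb]; nlinarith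
  have hb0 : 0 < b := by rw [hb]; positivity
  have hfin := lrs_par (t := t) (N := 768 * q ^ 7) (r := r) (K := 12 * q ^ 7) (D₀ := 2 * (q : ℝ) ^ 2)
    (b := b) (e₀ := 1 / (16 * (q : ℝ) ^ 2)) (s := 1 / (12 * (q : ℝ) ^ 3)) (by omega)
    (by
      have : 1 ≤ q ^ 7 := Nat.one_le_pow _ _ (by omega)
      omega) hr (by rw [hsq]) hb
    (by rw [div_le_one (by positivity)]; linarith)
    (by
      apply le_of_eq
      field_simp
      norm_num)
    P Q hP hQ hPQ hε (by positivity)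
    (by
      rw [div_le_one (by positivity)]
      have : (1 : ℝ) ≤ (q : ℝ) ^ 3 := one_le_pow₀ (by linarith)
      linarith)
    (by
      have h1 : 2 * (q : ℝ) ^ 2 + ε / 2 ≤ 3 * (q : ℝ) ^ 2 := by linarith
      have h2 : (1 / (12 * (q : ℝ) ^ 3)) ^ 2 * (2 * (q : ℝ) ^ 2 + ε / 2) / 2
          ≤ (1 / (12 * (q : ℝ) ^ 3)) ^ 2 * (3 * (q : ℝ) ^ 2) / 2 := by gcongr
      have h3 : (1 / (12 * (q : ℝ) ^ 3)) ^ 2 * (3 * (q : ℝ) ^ 2) / 2 = 1 / (24 * (q : ℝ) ^ 4) / 4 := by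
        field_simp
        ring
      linarith)
    (by
      have hKs : ((12 * q ^ 7 : ℕ) : ℝ) * (1 / (12 * (q : ℝ) ^ 3)) = t := by
        rw [htq']; push_cast; field_simp
      rw [hKs]
      have h1 : 2 * (q : ℝ) ^ 2 + ε / 2 ≤ 3 * (q : ℝ) ^ 2 := by linarith
      have h2 : (4 : ℝ) ^ t ≤ Real.exp t ^ 2 := by
        have h3 : (2 : ℝ) ≤ Real.exp 1 := by
          have := Real.add_one_le_exp (1 : ℝ)
          linarith
        have h4 : Real.exp t = Real.exp 1 ^ t := by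
          rw [← Real.exp_nat_mul, mul_one]
        rw [h4, ← pow_mul, mul_comm t 2, pow_mul, show (4 : ℝ) = 2 ^ 2 by norm_num]
        gcongr
      have h3 : (b + 1) * ((2 * (q : ℝ) ^ 2 + ε / 2) * r) ≤ 5 * (t : ℝ) ^ 2 * (3 * (q : ℝ) ^ 2 * 2 ^ t) := by
        have : (r : ℝ) ≤ 2 ^ t := by linarith
        gcongr
      refine h3.trans ?_
      have h4 : (4 : ℝ) ^ t = 2 ^ t * 2 ^ t := by
        rw [← mul_pow]; norm_num
      have h6 : (Real.exp t / 2) ^ 2 * (ε / 4 * (1 / (8 * (2 * (q : ℝ) ^ 2))))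
          ≥ (2 ^ t * 2 ^ t) / 4 * (1 / (24 * (q : ℝ) ^ 4) / 4 * (1 / (8 * (2 * (q : ℝ) ^ 2)))) := by
        rw [← h4, div_pow]
        norm_num only
        gcongr
      refine le_trans ?_ h6
      have h7 : (2 : ℝ) ^ t * 2 ^ t / 4 * (1 / (24 * (q : ℝ) ^ 4) / 4 * (1 / (8 * (2 * (q : ℝ) ^ 2))))
          = 2 ^ t * (2 ^ t / (6144 * ((q : ℝ) ^ 4 * (q : ℝ) ^ 2))) := by
        field_simp
        ring
      rw [h7]
      have h8 : 5 * (t : ℝ) ^ 2 * (3 * (q : ℝ) ^ 2 * 2 ^ t)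
          = 2 ^ t * (15 * (t : ℝ) ^ 2 * (q : ℝ) ^ 2) := by ring
      rw [h8]
      apply mul_le_mul_of_nonneg_left _ (by positivity)
      rw [le_div_iff₀ (by positivity)]
      calc 15 * (t : ℝ) ^ 2 * (q : ℝ) ^ 2 * (6144 * ((q : ℝ) ^ 4 * (q : ℝ) ^ 2))
          = 92160 * (t : ℝ) ^ 4 := by rw [htq']; ring
        _ ≤ 262144 * (t : ℝ) ^ 5 := by
            have : (t : ℝ) ^ 4 * 1 ≤ (t : ℝ) ^ 4 * t :=
              mul_le_mul_of_nonneg_left (by linarith) (by positivity)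
            nlinarith [pow_pos (by linarith : (0 : ℝ) < t) 4]
        _ ≤ 2 ^ t := h5')
  -- conclusion
  obtain ⟨K, hK⟩ : ∃ K : ℝ, K = 12 * (q : ℝ) ^ 7 := ⟨_, rfl⟩
  have hK0 : 0 < K := by rw [hK]; positivity
  have e1 : ((768 * q ^ 7 : ℕ) : ℝ) = 64 * K := by rw [hK]; push_cast; ring
  have e2 : ((12 * q ^ 7 : ℕ) : ℝ) = K := by rw [hK]; push_cast; ring
  rw [e1, e2, mul_pow] at hfin
  have e3 : 2 * (q : ℝ) ^ 2 * (2 * (ε / (8 * (2 * (q : ℝ) ^ 2))) + 1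
      + 1 / (ε / (8 * (2 * (q : ℝ) ^ 2)))) ≤ 265 * (t : ℝ) ^ 2 := by
    have h1 : 2 * (q : ℝ) ^ 2 * (2 * (ε / (8 * (2 * (q : ℝ) ^ 2))) + 1
      + 1 / (ε / (8 * (2 * (q : ℝ) ^ 2)))) = ε / 4 + 2 * (q : ℝ) ^ 2 + 32 * (q : ℝ) ^ 4 / ε := by
      field_simp
      ring
    have h2 : 32 * (q : ℝ) ^ 4 / ε = 256 * t * (t + 2) := by
      rw [hε, ← htq']
      field_simp
      ring
    have h3 : (q : ℝ) ^ 2 ≤ t := by
      rw [htq']
      nlinarith [sq_nonneg ((q : ℝ) ^ 2)]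
    rw [h1, h2]
    nlinarith
  have h1 : ε / 4 * (64 ^ (t + 1) * K ^ (t + 1))
      ≤ 265 * (t : ℝ) ^ 2 * ((2 ^ t * (5 * (t : ℝ) ^ 2)) * (2 ^ (4 * t + 1) * K ^ (t + 1))) := by
    refine hfin.trans ?_
    gcongr
  have h2 : (K ^ (t + 1)) * (ε / 4 * 64 ^ (t + 1))
      ≤ (K ^ (t + 1)) * (265 * (t : ℝ) ^ 2 * ((2 ^ t * (5 * (t : ℝ) ^ 2)) * 2 ^ (4 * t + 1))) := by
    calc (K ^ (t + 1)) * (ε / 4 * 64 ^ (t + 1)) = ε / 4 * (64 ^ (t + 1) * K ^ (t + 1)) := by ring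
      _ ≤ _ := h1
      _ = _ := by ring
  have h3 := le_of_mul_le_mul_left h2 (by positivity)
  have h4 : (64 : ℝ) ^ (t + 1) = 64 * (16 ^ t * (2 ^ t * 2 ^ t)) := by
    rw [pow_succ, ← mul_pow, ← mul_pow]; norm_num; ring
  have h6 : (2 : ℝ) ^ (4 * t + 1) = 2 * 16 ^ t := by
    rw [pow_succ, pow_mul]; norm_num; ring
  rw [h4, h6] at h3
  have h7 : (16 ^ t * 2 ^ t) * (16 * ε * 2 ^ t) ≤ (16 ^ t * 2 ^ t) * (2650 * (t : ℝ) ^ 4) := by
    calc (16 ^ t * 2 ^ t) * (16 * ε * 2 ^ t) = ε / 4 * (64 * (16 ^ t * (2 ^ t * 2 ^ t))) := by ring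
      _ ≤ _ := h3
      _ = _ := by ring
  have h8 := le_of_mul_le_mul_left h7 (by positivity)
  have h9 : (2 : ℝ) ^ t * 2 ≤ 2650 * (t : ℝ) ^ 4 * (t + 2) := by
    have h10 : 16 * ε * 2 ^ t = 2 ^ t * 2 / (t + 2) := by
      rw [hε]; field_simp; ring
    rw [h10, div_le_iff₀ (by positivity)] at h8
    exact h8
  have h10 : 2650 * (t : ℝ) ^ 4 * (t + 2) ≤ 2650 * (t : ℝ) ^ 4 * (2 * t) := by
    gcongr
    linarith
  have h11 : 0 < (t : ℝ) ^ 5 := by positivity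
  nlinarith

end Pool.Agent.Helper68.SDX
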