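import Pool.Agent.Helper68.SDX.Arr
import Pool.Agent.Helper68.SDX.Bound
import Pool.Agent.Helper68.SDP.Final

set_option autoImplicit false

/-!
# Exponential lower bound for semidefinite formulations
-/

namespace Pool.Agent.Helper68.SDX

open Pool.Agent.Helper68.LP (Gadget tlen InSquare)
open Pool.Agent.Helper68.SDP
open Matrix Finset

/-- one gadget -/
theorem gadget_bound {q t N : ℕ} (hq : 3 ≤ q) (ht : t = q ^ 4) (hN : N = 768 * q ^ 7)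
    (hk : 1 ≤ 2 * t) {Nb M : ℕ}
    (hPar : (arr ((4 * t + 1) * N) (2 * t) (q ^ 2) (4 * t + 1) hk).Params Nb M)
    {d r : ℕ} {Q : Set (Fin d → ℝ)} (hQ : IsSDP Q r) {δ : ℝ} (hδ : δ ≤ 1 / 100)
    (hsol : Solves Q (arr ((4 * t + 1) * N) (2 * t) (q ^ 2) (4 * t + 1) hk).n (2 * (M * Nb)) δ) :
    2 ^ t ≤ (r + 1) ^ 4 := by
  classical
  obtain ⟨W, hW, hfac⟩ := gc_fac (arr ((4 * t + 1) * N) (2 * t) (q ^ 2) (4 * t + 1) hk) hPar hQ hδ hsol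
  choose U u₀ hU hu₀ hUx using hfac
  have hq0 : (0 : ℝ) < q := by exact_mod_cast (by omega : 0 < q)
  have hUx' : ∀ (φ : Fin (4 * t + 1) → Fin N) (x : Fin (4 * t + 1) × Fin N → Bool),
      |(u₀ ⟨bset φ, size_bset φ⟩ + (U ⟨bset φ, size_bset φ⟩ * W (aset x)).trace)
        - (q : ℝ) ^ 2 * fk t (sel φ x)| ≤ 1 / 20 := by
    intro φ x
    have h1 := hUx ⟨bset φ, size_bset φ⟩ (aset x)
    have h5 : ((((q ^ 2 : ℕ) : ℤ) * ((Gadget.cap (aset x) (bset φ) - ((2 * t : ℕ) : ℤ)) *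
        (Gadget.cap (aset x) (bset φ) - ((2 * t : ℕ) : ℤ) - 1)) : ℤ) : ℝ)
        = (q : ℝ) ^ 2 * fk t (sel φ x) := by
      rw [cap_eq x φ]
      unfold fk
      push_cast
      ring
    rw [← h5]
    exact h1
  subst hN
  exact lrs_exp ht hq (r := r + 1) (by omega)
    (fun φ => (1 / (q : ℝ) ^ 2) • blk (U ⟨bset φ, size_bset φ⟩) (u₀ ⟨bset φ, size_bset φ⟩))
    (fun x => blk (W (aset x)) 1)
    (fun φ => (blk_psd (hU _) (hu₀ _)).smul (by positivity))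
    (fun x => blk_psd (hW _) zero_le_one)
    (fun φ x => by
      rw [smul_mul_assoc, trace_smul, smul_eq_mul, blk_trace, mul_one]
      have h1 := hUx' φ x
      set Z := (U ⟨bset φ, size_bset φ⟩ * W (aset x)).trace
      set z := u₀ ⟨bset φ, size_bset φ⟩
      have h2 : 1 / (q : ℝ) ^ 2 * (Z + z) - fk t (sel φ x)
          = 1 / (q : ℝ) ^ 2 * ((z + Z) - (q : ℝ) ^ 2 * fk t (sel φ x)) := by
        field_simp
        ring
      rw [h2, abs_mul, abs_of_pos (by positivity : 0 < 1 / (q : ℝ) ^ 2)]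
      calc 1 / (q : ℝ) ^ 2 * |(z + Z) - (q : ℝ) ^ 2 * fk t (sel φ x)|
          ≤ 1 / (q : ℝ) ^ 2 * (1 / 20) := mul_le_mul_of_nonneg_left h1 (by positivity)
        _ ≤ 1 / (16 * (q : ℝ) ^ 2) := by
            rw [div_mul_div_comm, one_mul]
            apply one_div_le_one_div_of_le (by positivity)
            have : 0 < (q : ℝ) ^ 2 := by positivity
            linarith)

/-- sizes of the gadget -/
theorem gadget_sizes {q t N : ℕ} (hq : 3 ≤ q) (ht : t = q ^ 4) (hN : N = 768 * q ^ 7)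
    (hk : 1 ≤ 2 * t) :
    (arr ((4 * t + 1) * N) (2 * t) (q ^ 2) (4 * t + 1) hk).n ≤ 6 * 10 ^ 9 * q ^ 22 ∧
    (arr ((4 * t + 1) * N) (2 * t) (q ^ 2) (4 * t + 1) hk).Params (10 ^ 5 * q ^ 11)
      (2 * 10 ^ 25 * q ^ 64) := by
  have q1 : ∀ j k : ℕ, j ≤ k → q ^ j ≤ q ^ k := fun j k h => Nat.pow_le_pow_right (by omega) h
  have q0 : 1 ≤ q ^ 11 := Nat.one_le_pow _ _ (by omega)
  have hM : (4 * t + 1) * N ≤ 3840 * q ^ 11 := by
    have h1 : 4 * t + 1 ≤ 5 * q ^ 4 := by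
      have : 1 ≤ q ^ 4 := Nat.one_le_pow _ _ (by omega)
      omega
    calc (4 * t + 1) * N ≤ (5 * q ^ 4) * (768 * q ^ 7) := Nat.mul_le_mul h1 hN.le
      _ = 3840 * q ^ 11 := by ring
  have hn : (arr ((4 * t + 1) * N) (2 * t) (q ^ 2) (4 * t + 1) hk).n ≤ 6 * 10 ^ 9 * q ^ 22 := by
    refine (arr_n _ _ _ _ hk).trans ?_
    have h1 : (4 * t + 1) * N + 2 ≤ 3842 * q ^ 11 := by omega
    calc 400 * ((4 * t + 1) * N + 2) ^ 2 ≤ 400 * (3842 * q ^ 11) ^ 2 :=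
          Nat.mul_le_mul_left _ (Nat.pow_le_pow_left h1 2)
      _ = 5904385600 * q ^ 22 := by ring
      _ ≤ 6 * 10 ^ 9 * q ^ 22 := Nat.mul_le_mul_right _ (by norm_num)
  refine ⟨hn, ?_, ?_⟩
  · intro i
    obtain ⟨h1, h2⟩ := arr_box _ _ _ _ hk i
    constructor
    · refine h1.trans ?_
      omega
    · refine h2.trans ?_
      omega
  · have hCb : (arr ((4 * t + 1) * N) (2 * t) (q ^ 2) (4 * t + 1) hk).Cb ≤ 25 * q ^ 10 := by
      change (4 * t + 1) * (2 * (2 * t) * q ^ 2) + 1 + 2 * (2 * t) * q ^ 2 ≤ 25 * q ^ 10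
      have e1 : (4 * t + 1) * (2 * (2 * t) * q ^ 2) + 1 + 2 * (2 * t) * q ^ 2
          = 16 * q ^ 10 + 8 * q ^ 6 + 1 := by rw [ht]; ring
      have e2 := q1 6 10 (by norm_num)
      have e3 : 1 ≤ q ^ 10 := Nat.one_le_pow _ _ (by omega)
      omega
    have hK : (arr ((4 * t + 1) * N) (2 * t) (q ^ 2) (4 * t + 1) hk).K ≤ 15 * 10 ^ 10 * q ^ 32 := by
      change (arr ((4 * t + 1) * N) (2 * t) (q ^ 2) (4 * t + 1) hk).n *
        (arr ((4 * t + 1) * N) (2 * t) (q ^ 2) (4 * t + 1) hk).Cb ≤ _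
      calc _ ≤ (6 * 10 ^ 9 * q ^ 22) * (25 * q ^ 10) := Nat.mul_le_mul hn hCb
        _ = 15 * 10 ^ 10 * q ^ 32 := by ring
    generalize (arr ((4 * t + 1) * N) (2 * t) (q ^ 2) (4 * t + 1) hk).K = K at *
    generalize (arr ((4 * t + 1) * N) (2 * t) (q ^ 2) (4 * t + 1) hk).Cb = Cb at *
    generalize (arr ((4 * t + 1) * N) (2 * t) (q ^ 2) (4 * t + 1) hk).n = n at *
    have h1 : 10 ^ 5 * q ^ 11 * Cb ≤ 25 * 10 ^ 5 * q ^ 21 := by
      calc 10 ^ 5 * q ^ 11 * Cb ≤ 10 ^ 5 * q ^ 11 * (25 * q ^ 10) := Nat.mul_le_mul_left _ hCb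
        _ = _ := by ring
    have h2 : 400 * (n * (10 ^ 5 * q ^ 11 * Cb) ^ 2) ≤ 15 * 10 ^ 24 * q ^ 64 := by
      calc 400 * (n * (10 ^ 5 * q ^ 11 * Cb) ^ 2)
          ≤ 400 * ((6 * 10 ^ 9 * q ^ 22) * (25 * 10 ^ 5 * q ^ 21) ^ 2) :=
            Nat.mul_le_mul_left _ (Nat.mul_le_mul hn (Nat.pow_le_pow_left h1 2))
        _ = 15 * 10 ^ 24 * q ^ 64 := by ring
    have e1 := q1 32 64 (by norm_num)
    have e2 := q1 21 64 (by norm_num)
    have e3 := q1 10 64 (by norm_num)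
    have e4 : 1 ≤ q ^ 64 := Nat.one_le_pow _ _ (by omega)
    generalize 400 * (n * (10 ^ 5 * q ^ 11 * Cb) ^ 2) = z at *
    norm_num at h1 h2 hK ⊢
    omega

/-- Exponential lower bound for semidefinite formulations of the planar Euclidean travelling
salesman problem. -/
theorem sdp_exp : ∃ (c : ℝ) (n₀ : ℕ), 0 < c ∧ ∀ (n r R : ℕ) (δ : ℝ), n₀ ≤ n → 0 ≤ δ →
    (n + δ) * (n : ℝ) ^ 4 ≤ R → ∀ (d : ℕ) (Q : Set (Fin d → ℝ)), IsSDP Q r →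
    Solves Q n R δ → (2 : ℝ) ^ (c * (n : ℝ) ^ (2 / 11 : ℝ)) ≤ r := by
  obtain ⟨A, hA⟩ : ∃ A : ℕ, A = 6 * 10 ^ 9 := ⟨_, rfl⟩
  have hA0 : 0 < A := by rw [hA]; norm_num
  have hA0' : (0 : ℝ) < A := by exact_mod_cast hA0
  obtain ⟨c₁, hc₁⟩ : ∃ c₁ : ℝ, c₁ = 1 / (64 * (A : ℝ) ^ (2 / 11 : ℝ)) := ⟨_, rfl⟩
  have hc₁0 : 0 < c₁ := by rw [hc₁]; positivity
  refine ⟨c₁ / 2, A * 4 ^ 22 + ⌈(2 / c₁) ^ (11 / 2 : ℝ)⌉₊, by positivity,
    fun n r R δ hn hδ hR d Q hQ hsol => ?_⟩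
  have hn4 : A * 4 ^ 22 ≤ n := (Nat.le_add_right _ _).trans hn
  have hn5 : ⌈(2 / c₁) ^ (11 / 2 : ℝ)⌉₊ ≤ n := (Nat.le_add_left _ _).trans hn
  clear hn
  have hn1 : 1 ≤ n := (Nat.mul_pos hA0 (by norm_num)).trans_le hn4
  have hn0' : (0 : ℝ) < n := by exact_mod_cast hn1
  -- the parameter
  set x : ℝ := ((n : ℝ) / A) ^ (1 / 22 : ℝ) with hx
  have hx0 : 0 ≤ x := by positivity
  have hx22 : x ^ 22 = (n : ℝ) / A := by
    rw [hx, ← Real.rpow_natCast, ← Real.rpow_mul (by positivity)]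
    norm_num
  have hx4 : 4 ≤ x := by
    have h1 : (4 : ℝ) ^ 22 ≤ x ^ 22 := by
      rw [hx22, le_div_iff₀ hA0']
      exact_mod_cast (by rw [mul_comm]; exact hn4 : 4 ^ 22 * A ≤ n)
    by_contra h
    push Not at h
    have : x ^ 22 < 4 ^ 22 := pow_lt_pow_left₀ h hx0 (by norm_num)
    linarith
  set q : ℕ := ⌊x⌋₊ with hqd
  have hqx : (q : ℝ) ≤ x := Nat.floor_le hx0
  have hqx2 : x / 2 ≤ q := by
    have := Nat.lt_floor_add_one x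
    rw [← hqd] at this
    linarith
  have hq : 3 ≤ q := Nat.le_floor (by push_cast; linarith)
  have hqn : A * q ^ 22 ≤ n := by
    have h1 : (A : ℝ) * (q : ℝ) ^ 22 ≤ n := by
      have h2 : (q : ℝ) ^ 22 ≤ x ^ 22 := pow_le_pow_left₀ (by positivity) hqx 22
      rw [hx22, le_div_iff₀ hA0'] at h2
      linarith
    exact_mod_cast h1
  obtain ⟨t, ht⟩ : ∃ t, t = q ^ 4 := ⟨_, rfl⟩
  obtain ⟨N, hN⟩ : ∃ N, N = 768 * q ^ 7 := ⟨_, rfl⟩
  have hk : 1 ≤ 2 * t := by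
    have : 1 ≤ q ^ 4 := Nat.one_le_pow _ _ (by omega)
    omega
  obtain ⟨hGn, hPar⟩ := gadget_sizes hq ht hN hk
  set G := arr ((4 * t + 1) * N) (2 * t) (q ^ 2) (4 * t + 1) hk with hG
  have hGn' : G.n ≤ n := by
    refine hGn.trans ?_
    rw [← hA]
    exact hqn
  obtain ⟨tp, htp⟩ : ∃ tp, n = G.n + tp := ⟨n - G.n, by omega⟩
  set S : ℕ := 100 * ⌈δ⌉₊ + 200 * n + 1 with hS
  have hceil : (⌈δ⌉₊ : ℝ) ≤ δ + 1 := (Nat.ceil_lt_add_one hδ).le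
  have hceil2 : δ ≤ (⌈δ⌉₊ : ℝ) := Nat.le_ceil δ
  have htpn : tp ≤ n := by omega
  have htpn' : (tp : ℝ) ≤ n := by exact_mod_cast htpn
  have hn1' : (1 : ℝ) ≤ n := by exact_mod_cast hn1
  have hq9 : 1 ≤ q ^ 9 := Nat.one_le_pow _ _ (by omega)
  -- the size of the square
  have hRG : 2 * (2 * 10 ^ 25 * q ^ 64 * (10 ^ 5 * q ^ 11)) ≤ (19 * q ^ 9) * n ^ 3 := by
    calc 2 * (2 * 10 ^ 25 * q ^ 64 * (10 ^ 5 * q ^ 11)) = 4 * 10 ^ 30 * q ^ 75 := by ring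
      _ ≤ 4104 * 10 ^ 27 * q ^ 75 := Nat.mul_le_mul_right _ (by norm_num)
      _ = (19 * q ^ 9) * (A * q ^ 22) ^ 3 := by rw [hA]; ring
      _ ≤ (19 * q ^ 9) * n ^ 3 := Nat.mul_le_mul_left _ (Nat.pow_le_pow_left hqn 3)
  have hA₂ : 402 * (19 * q ^ 9) ≤ n := by
    have h1 : q ^ 9 ≤ q ^ 22 := Nat.pow_le_pow_right (by omega) (by norm_num)
    calc 402 * (19 * q ^ 9) = 7638 * q ^ 9 := by ring
      _ ≤ A * q ^ 22 := Nat.mul_le_mul (by rw [hA]; norm_num) h1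
      _ ≤ n := hqn
  have h5 : (S : ℝ) ≤ 401 * (n + δ) := by
    rw [hS]; push_cast
    linarith
  have hSR := pad_arith hδ hn1 (by omega) hA₂ h5 htpn hRG hR
  have hSt : tp < S := by omega
  have hSδ : δ + 2 * tp ≤ S * (1 / 100 : ℝ) := by
    rw [hS]; push_cast
    linarith
  have hsol' : Solves Q (G.n + tp) R δ := by rw [← htp]; exact hsol
  have hsol2 := hsol'.restrict (by have := G.hn; omega) hSt hSR hSδ
  have hfin := gadget_bound hq ht hN hk hPar hQ le_rfl hsol2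
  -- the asymptotics
  have hfin' : (2 : ℝ) ^ (t : ℝ) ≤ ((r : ℝ) + 1) ^ 4 := by
    rw [Real.rpow_natCast]
    exact_mod_cast hfin
  set y : ℝ := c₁ * (n : ℝ) ^ (2 / 11 : ℝ) with hy
  have hyt : 4 * y ≤ t := by
    have h1 : x ^ 4 = (n : ℝ) ^ (2 / 11 : ℝ) / (A : ℝ) ^ (2 / 11 : ℝ) := by
      rw [hx, ← Real.rpow_natCast, ← Real.rpow_mul (by positivity), ← Real.div_rpow hn0'.le hA0'.le]
      norm_num
    have h2 : 4 * y = (x / 2) ^ 4 := by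
      rw [div_pow, h1, hy, hc₁]
      field_simp
      ring
    rw [h2, ht]
    push_cast
    exact pow_le_pow_left₀ (by positivity) hqx2 4
  have hy2 : 2 ≤ y := by
    have h1 : (2 / c₁) ^ (11 / 2 : ℝ) ≤ n := by
      refine (Nat.le_ceil _).trans ?_
      exact_mod_cast hn5
    have h2 : ((2 / c₁) ^ (11 / 2 : ℝ)) ^ (2 / 11 : ℝ) ≤ (n : ℝ) ^ (2 / 11 : ℝ) :=
      Real.rpow_le_rpow (by positivity) h1 (by norm_num)
    rw [← Real.rpow_mul (by positivity)] at h2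
    norm_num at h2
    rw [div_le_iff₀ hc₁0] at h2
    rw [hy]
    have e : (2 / 11 : ℝ) = 2 / 11 := rfl
    linarith
  have h1 : (2 : ℝ) ^ y ≤ (r : ℝ) + 1 := by
    have h2 : ((2 : ℝ) ^ y) ^ 4 ≤ ((r : ℝ) + 1) ^ 4 := by
      refine le_trans ?_ hfin'
      rw [← Real.rpow_natCast, ← Real.rpow_mul (by norm_num)]
      apply Real.rpow_le_rpow_of_exponent_le (by norm_num)
      push_cast
      linarith
    exact le_of_pow_le_pow_left₀ (by norm_num) (by positivity) h2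
  have h2 : (2 : ℝ) ^ y = (2 : ℝ) ^ (y / 2) * (2 : ℝ) ^ (y / 2) := by
    rw [← Real.rpow_add (by norm_num)]
    congr 1
    ring
  have h3 : (2 : ℝ) ≤ (2 : ℝ) ^ (y / 2) := by
    calc (2 : ℝ) = (2 : ℝ) ^ (1 : ℝ) := (Real.rpow_one 2).symm
      _ ≤ _ := Real.rpow_le_rpow_of_exponent_le (by norm_num) (by linarith)
  have h4 : c₁ / 2 * (n : ℝ) ^ (2 / 11 : ℝ) = y / 2 := by rw [hy]; ring
  rw [h4]
  rw [h2] at h1
  nlinarith

end Pool.Agent.Helper68.SDX
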