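import Pool.Agent.Helper38.ELP.All
import Pool.Agent.Helper68.LP.FromD
import Pool.Agent.Helper68.SDP.Costs

set_option autoImplicit false

/-!
# Quadratic costs on the array

Adapted from `Pool/Agent/Helper38/MR/W.lean` and `Pool/Agent/Helper38/ELP/Asm.lean`.
-/

namespace Pool.Agent.Helper68.SDX

open Pool.Agent.Helper38.ELP hiding UnitTour
open Pool.Agent.Helper68.LP (pert tcost UnitTour ucost Nb nat2 ucost_ew Gadget)
open Pool.Agent.Helper68.ELP (PN posN_eq PN_inj PN_mem)
open Pool.Agent.Helper68.SDP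

theorem sum_ind {ι : Type} [Fintype ι] (V : Finset (ℕ × ℕ)) (u : ℕ → ℕ → Bool)
    (hV : ∀ x y, u x y = true → (x, y) ∈ V) (f : ι → ℕ × ℕ) (c : ι → ℤ) :
    ∑ p ∈ V, (if u p.1 p.2 = true then ∑ k, (if p = f k then c k else 0) else 0) =
      ∑ k, if u (f k).1 (f k).2 = true then c k else 0 := by
  have h1 : ∀ p ∈ V, (if u p.1 p.2 = true then ∑ k, (if p = f k then c k else 0) else 0) =
      ∑ k, if u p.1 p.2 = true ∧ p = f k then c k else 0 := by
    intro p _
    by_cases h : u p.1 p.2 = true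
    · simp [h]
    · simp [h]
  rw [Finset.sum_congr rfl h1, Finset.sum_comm]
  refine Finset.sum_congr rfl fun k _ => ?_
  by_cases h : u (f k).1 (f k).2 = true
  · rw [if_pos h, Finset.sum_eq_single (f k)]
    · rw [if_pos ⟨h, rfl⟩]
    · intro p _ hp
      rw [if_neg]
      rintro ⟨_, h2⟩
      exact hp h2
    · intro hc
      exact absurd (hV _ _ h) hc
  · rw [if_neg h]
    apply Finset.sum_eq_zero
    intro p _
    rw [if_neg]
    rintro ⟨h2, h3⟩
    rw [h3] at h2
    exact h h2

section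

variable (M : ℕ) (W : ℤ)

/-- basic weights -/
def cH (x y : ℕ) : ℤ :=
  if rd foH (2 * M + 2) x y = true then -W
  else if rd alH (2 * M + 2) x y = true then 0 else W

/-- basic weights -/
def cV (x y : ℕ) : ℤ :=
  if rd foV (2 * M + 2) x y = true then -W
  else if rd alV (2 * M + 2) x y = true then 0 else W

/-- basic cost of a set of used edges -/
def cbase (uh uv : ℕ → ℕ → Bool) : ℤ :=
  ∑ p ∈ Vset (2 * M + 2), ((if uh p.1 p.2 = true then cH M W p.1 p.2 else 0) +
    (if uv p.1 p.2 = true then cV M W p.1 p.2 else 0))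

/-- minimal basic cost -/
def c0 : ℤ :=
  ∑ p ∈ Vset (2 * M + 2), ((if rd foH (2 * M + 2) p.1 p.2 = true then -W else 0) +
    (if rd foV (2 * M + 2) p.1 p.2 = true then -W else 0))

variable {M W}

theorem ctermH (hW : 0 < W) (uh : ℕ → ℕ → Bool) (x y : ℕ) :
    (if rd foH (2 * M + 2) x y = true then -W else 0) ≤
      (if uh x y = true then cH M W x y else 0) ∧
    ((if uh x y = true then cH M W x y else 0) <
      (if rd foH (2 * M + 2) x y = true then -W else 0) + W →
      (uh x y = true → rd alH (2 * M + 2) x y = true) ∧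
      (rd foH (2 * M + 2) x y = true → uh x y = true)) := by
  unfold cH
  by_cases h1 : uh x y = true <;> by_cases h2 : rd foH (2 * M + 2) x y = true <;>
    by_cases h3 : rd alH (2 * M + 2) x y = true <;> simp [h1, h2, h3]
  all_goals first | omega | exact (h3 (foH_ok h2).1).elim

theorem ctermV (hW : 0 < W) (uv : ℕ → ℕ → Bool) (x y : ℕ) :
    (if rd foV (2 * M + 2) x y = true then -W else 0) ≤
      (if uv x y = true then cV M W x y else 0) ∧
    ((if uv x y = true then cV M W x y else 0) <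
      (if rd foV (2 * M + 2) x y = true then -W else 0) + W →
      (uv x y = true → rd alV (2 * M + 2) x y = true) ∧
      (rd foV (2 * M + 2) x y = true → uv x y = true)) := by
  unfold cV
  by_cases h1 : uv x y = true <;> by_cases h2 : rd foV (2 * M + 2) x y = true <;>
    by_cases h3 : rd alV (2 * M + 2) x y = true <;> simp [h1, h2, h3]
  all_goals first | omega | exact (h3 (foV_ok h2).1).elim

theorem cbase_low (hW : 0 < W) (uh uv : ℕ → ℕ → Bool) : c0 M W ≤ cbase M W uh uv ∧
    (cbase M W uh uv < c0 M W + W → ∀ p ∈ Vset (2 * M + 2),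
      ((uh p.1 p.2 = true → rd alH (2 * M + 2) p.1 p.2 = true) ∧
        (rd foH (2 * M + 2) p.1 p.2 = true → uh p.1 p.2 = true)) ∧
      ((uv p.1 p.2 = true → rd alV (2 * M + 2) p.1 p.2 = true) ∧
        (rd foV (2 * M + 2) p.1 p.2 = true → uv p.1 p.2 = true))) := by
  have h1 : c0 M W ≤ cbase M W uh uv :=
    Finset.sum_le_sum fun p _ => add_le_add (ctermH hW uh p.1 p.2).1 (ctermV hW uv p.1 p.2).1
  refine ⟨h1, fun hlt p hp => ?_⟩
  have h2 : ((if uh p.1 p.2 = true then cH M W p.1 p.2 else 0) +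
      (if uv p.1 p.2 = true then cV M W p.1 p.2 else 0)) -
      ((if rd foH (2 * M + 2) p.1 p.2 = true then -W else 0) +
      (if rd foV (2 * M + 2) p.1 p.2 = true then -W else 0)) ≤
      cbase M W uh uv - c0 M W := by
    unfold cbase c0
    rw [← Finset.sum_sub_distrib]
    exact Finset.single_le_sum (f := fun p : ℕ × ℕ =>
      ((if uh p.1 p.2 = true then cH M W p.1 p.2 else 0) +
      (if uv p.1 p.2 = true then cV M W p.1 p.2 else 0)) -
      ((if rd foH (2 * M + 2) p.1 p.2 = true then -W else 0) +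
      (if rd foV (2 * M + 2) p.1 p.2 = true then -W else 0)))
      (fun q _ => sub_nonneg.mpr (add_le_add (ctermH hW uh q.1 q.2).1 (ctermV hW uv q.1 q.2).1)) hp
  have h3 := (ctermH (M := M) hW uh p.1 p.2).1
  have h4 := (ctermV (M := M) hW uv p.1 p.2).1
  exact ⟨(ctermH hW uh p.1 p.2).2 (by linarith), (ctermV hW uv p.1 p.2).2 (by linarith)⟩

theorem cbase_good {uh uv : ℕ → ℕ → Bool} (hg : Good (2 * M + 2) uh uv) :
    cbase M W uh uv = c0 M W := by
  unfold cbase c0
  refine Finset.sum_congr rfl fun p _ => ?_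
  have h1 := hg.alwH p.1 p.2
  have h2 := hg.frcH p.1 p.2
  have h3 := hg.alwV p.1 p.2
  have h4 := hg.frcV p.1 p.2
  unfold cH cV
  congr 1
  · by_cases g1 : uh p.1 p.2 = true <;> by_cases g2 : rd foH (2 * M + 2) p.1 p.2 = true
    · simp [g1, g2]
    · simp [g1, g2, h1 g1]
    · exact absurd (h2 g2) g1
    · simp [g1, g2]
  · by_cases g1 : uv p.1 p.2 = true <;> by_cases g2 : rd foV (2 * M + 2) p.1 p.2 = true
    · simp [g1, g2]
    · simp [g1, g2, h3 g1]
    · exact absurd (h4 g2) g1
    · simp [g1, g2]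

theorem c0_nonpos (hW : 0 < W) : c0 M W ≤ 0 := by
  unfold c0
  apply Finset.sum_nonpos
  intro p _
  split_ifs <;> linarith

end

section

variable {M : ℕ} (lin : Fin M → ℤ) (quad : Fin M → Fin M → ℤ) (W : ℤ)

/-- horizontal weights -/
def wh (x y : ℕ) : ℤ := cH M W x y + ∑ k : Fin M, if (x, y) = eK k then lin k else 0

/-- vertical weights -/
def wv (x y : ℕ) : ℤ := cV M W x y +
  ∑ k : Fin M × Fin M, if (x, y) = rK k.1 k.2 then (if k.1 < k.2 then quad k.1 k.2 else 0) else 0

/-- the reading part of the weight of a configuration -/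
def rpart (uh uv : ℕ → ℕ → Bool) : ℤ :=
  (∑ k : Fin M, if uh (eK k).1 (eK k).2 = true then lin k else 0) +
  ∑ k : Fin M × Fin M, if uv (rK k.1 k.2).1 (rK k.1 k.2).2 = true then
    (if k.1 < k.2 then quad k.1 k.2 else 0) else 0

/-- the value of a bit vector -/
def value (β : Fin M → Bool) : ℤ :=
  (∑ k, if β k = true then lin k else 0) +
  ∑ k, ∑ l, if k < l ∧ β k = true ∧ β l = true then quad k l else 0

/-- unit tours in the sense of ELP -/
theorem unit_posN {N : ℕ} {σ : Equiv.Perm (Fin (Vset N).card)} (h : UnitTour (PN N) σ) :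
    Pool.Agent.Helper38.ELP.UnitTour (posN N) σ := by
  intro i
  have hi := h i
  unfold Nb at hi
  unfold UnitStep
  have e : ∀ j, posN N j = (((PN N j).1 : ℤ), ((PN N j).2 : ℤ)) := fun j => rfl
  rw [e, e]
  simp only
  rcases hi with ⟨a, b⟩ | ⟨a, b⟩ | ⟨a, b⟩ | ⟨a, b⟩
  · rw [a, b]; push_cast; ring
  · rw [a, b]; push_cast; ring
  · rw [a, b]; push_cast; ring
  · rw [a, b]; push_cast; ring

theorem unit_PN {N : ℕ} {σ : Equiv.Perm (Fin (Vset N).card)}
    (h : Pool.Agent.Helper38.ELP.UnitTour (posN N) σ) : UnitTour (PN N) σ :=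
  Pool.Agent.Helper68.ELP.unit_nb h

/-- total weight of a unit tour -/
theorem tcost_eq (K : ℤ) (σ : Equiv.Perm (Fin (Vset (2 * M + 2)).card))
    (hu : UnitTour (PN (2 * M + 2)) σ) :
    tcost (wh lin W) (wv quad W) K (PN (2 * M + 2)) σ =
      cbase M W (useH (posN (2 * M + 2)) σ) (useV (posN (2 * M + 2)) σ) +
      rpart lin quad (useH (posN (2 * M + 2)) σ) (useV (posN (2 * M + 2)) σ) := by
  have hu' := unit_posN hu
  have h1 : tcost (wh lin W) (wv quad W) K (PN (2 * M + 2)) σ =
      tourW (fun x y => wh lin W x.toNat y.toNat)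
        (fun x y => wv quad W x.toNat y.toNat) (posN (2 * M + 2)) σ := by
    unfold tcost tourW
    refine Finset.sum_congr rfl fun i _ => ?_
    have hn := hu i
    have key := ucost_ew (fun x y => wh lin W x.toNat y.toNat)
        (fun x y => wv quad W x.toNat y.toNat) K
        (p := posN (2 * M + 2) (σ i)) (q := posN (2 * M + 2) (σ (finRotate _ i)))
        (by unfold posN; simp) (by unfold posN; simp)
        (by
          have e : ∀ j, nat2 (posN (2 * M + 2) j) = PN (2 * M + 2) j := by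
            intro j
            unfold nat2 posN PN
            simp
          rw [e, e]
          exact hn)
    have e : ∀ j, nat2 (posN (2 * M + 2) j) = PN (2 * M + 2) j := by
      intro j
      unfold nat2 posN PN
      simp
    rw [e, e] at key
    rw [← key]
    simp only [Int.toNat_natCast]
  rw [h1, Pool.Agent.Helper68.ELP.d2 _ σ _ _ (card_ge M) hu']
  unfold cbase rpart
  rw [← sum_ind (Vset (2 * M + 2)) _ (useH_mem σ) (fun k : Fin M => eK k) lin,
    ← sum_ind (Vset (2 * M + 2)) _ (useV_mem σ) (fun k : Fin M × Fin M => rK k.1 k.2)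
      (fun k => if k.1 < k.2 then quad k.1 k.2 else 0),
    ← Finset.sum_add_distrib, ← Finset.sum_add_distrib]
  refine Finset.sum_congr rfl fun p _ => ?_
  simp only [Int.toNat_natCast]
  unfold wh wv
  by_cases g1 : useH (posN (2 * M + 2)) σ p.1 p.2 = true <;>
    by_cases g2 : useV (posN (2 * M + 2)) σ p.1 p.2 = true <;> (simp [g1, g2]; try ring)

/-- the reading part of a good configuration -/
theorem rpart_good {uh uv : ℕ → ℕ → Bool} (hg : Good (2 * M + 2) uh uv) :
    rpart lin quad uh uv = value lin quad (fun k => uh (eK k).1 (eK k).2) := by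
  unfold rpart value
  congr 1
  rw [Fintype.sum_prod_type]
  refine Finset.sum_congr rfl fun k _ => Finset.sum_congr rfl fun l _ => ?_
  by_cases hkl : k < l
  · have h := D6 M _ _ hg (k + 1) (l + 1) (by omega)
      (by have := Fin.lt_def.mp hkl; omega) (by have := l.2; omega)
    have e : uv (rK k l).1 (rK k l).2 =
        (uh (eK k).1 (eK k).2 && uh (eK l).1 (eK l).2) := h
    rw [e]
    by_cases g1 : uh (eK k).1 (eK k).2 = true <;> by_cases g2 : uh (eK l).1 (eK l).2 = true <;>
      simp [hkl, g1, g2]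
  · simp [hkl]

theorem ind_sum_le {ι : Type} [Fintype ι] [DecidableEq ι] (f : ι → ℕ × ℕ)
    (c : ι → ℤ) (b : ℤ) (hb : 0 ≤ b) (p : ℕ × ℕ)
    (hf : ∀ i j, c i ≠ 0 → c j ≠ 0 → f i = f j → i = j)
    (hc : ∀ i, |c i| ≤ b) : |∑ k, if p = f k then c k else 0| ≤ b := by
  by_cases h : ∃ k, p = f k ∧ c k ≠ 0
  · obtain ⟨k, hk, hck⟩ := h
    rw [Finset.sum_eq_single k]
    · rw [if_pos hk]; exact hc k
    · intro j _ hj
      by_cases hp : p = f j
      · rw [if_pos hp]
        by_contra hcj
        exact hj (hf j k hcj hck (hp.symm.trans hk))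
      · rw [if_neg hp]
    · intro hh; exact absurd (Finset.mem_univ k) hh
  · rw [Finset.sum_eq_zero, abs_zero]
    · exact hb
    · intro k _
      by_cases hp : p = f k
      · rw [if_pos hp]
        by_contra hck
        exact h ⟨k, hp, hck⟩
      · rw [if_neg hp]

variable {lin quad} {w : ℕ}

theorem wh_le (hW : 0 ≤ W) (hl : ∀ k, |lin k| ≤ w) (x y : ℕ) : |wh lin W x y| ≤ W + w := by
  unfold wh
  have h1 : |cH M W x y| ≤ W := by
    unfold cH
    split_ifs
    · rw [abs_neg, abs_of_nonneg hW]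
    · simpa using hW
    · rw [abs_of_nonneg hW]
  have h2 := ind_sum_le (fun k : Fin M => eK k) lin w (by positivity) (x, y)
    (fun i j _ _ h => by
      simp only [eK, Prod.mk.injEq, true_and] at h
      exact Fin.ext (by omega)) hl
  exact (abs_add_le _ _).trans (add_le_add h1 h2)

theorem wv_le (hW : 0 ≤ W) (hq : ∀ k l, |quad k l| ≤ w) (x y : ℕ) :
    |wv quad W x y| ≤ W + w := by
  unfold wv
  have h1 : |cV M W x y| ≤ W := by
    unfold cV
    split_ifs
    · rw [abs_neg, abs_of_nonneg hW]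
    · simpa using hW
    · rw [abs_of_nonneg hW]
  have h2 := ind_sum_le (fun k : Fin M × Fin M => rK k.1 k.2)
    (fun k => if k.1 < k.2 then quad k.1 k.2 else 0) w (by positivity) (x, y)
    (fun i j _ _ h => by
      simp only [rK, Prod.mk.injEq] at h
      exact Prod.ext (Fin.ext (by omega)) (Fin.ext (by omega)))
    (fun k => by split_ifs; exact hq _ _; simp)
  exact (abs_add_le _ _).trans (add_le_add h1 h2)

theorem ucost_ge {h v : ℕ → ℕ → ℤ} {b K : ℤ} (hh : ∀ x y, |h x y| ≤ b) (hv : ∀ x y, |v x y| ≤ b)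
    (hK : -b ≤ K) (p q : ℕ × ℕ) : -b ≤ ucost h v K p q := by
  unfold ucost
  split_ifs
  · exact (abs_le.mp (hh _ _)).1
  · exact (abs_le.mp (hh _ _)).1
  · exact (abs_le.mp (hv _ _)).1
  · exact (abs_le.mp (hv _ _)).1
  · exact hK

end

/-- the tour of a bit vector -/
theorem exists_tour (M : ℕ) (β : Fin M → Bool) :
    ∃ σ : Equiv.Perm (Fin (Vset (2 * M + 2)).card), UnitTour (PN (2 * M + 2)) σ ∧
      Good (2 * M + 2) (useH (posN (2 * M + 2)) σ) (useV (posN (2 * M + 2)) σ) ∧
      ∀ k : Fin M, useH (posN (2 * M + 2)) σ (eK k).1 (eK k).2 = β k := by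
  classical
  obtain ⟨S, hS⟩ : ∃ S : Finset (Fin M), S = Finset.univ.filter fun k => β k = true := ⟨_, rfl⟩
  obtain ⟨σ, hu, hH, hV⟩ := D10 M (bits S) (bits_zero S) (bits_last S)
  obtain ⟨c1, c2, c3, c4, _⟩ := Pool.Agent.Helper68.ELP.d8 M (bits S) (bits_zero S) (bits_last S)
  obtain ⟨hd, hc⟩ := Pool.Agent.Helper68.ELP.d1 _ σ (card_ge M) hu
  refine ⟨σ, unit_PN hu, ?_, fun k => ?_⟩
  · exact {
      alwH := fun x y h => by rw [hH] at h; exact (c1 x y h).1
      alwV := fun x y h => by rw [hV] at h; exact (c2 x y h).1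
      frcH := fun x y h => by rw [hH]; exact c3 x y h
      frcV := fun x y h => by rw [hV]; exact c4 x y h
      deg := hd
      nocyc := hc }
  · rw [hH]
    have h := read_bit S k
    rw [hS, Finset.mem_filter] at h
    rw [hS]
    cases hb : β k
    · rw [← Bool.not_eq_true]
      intro hcon
      have := (h.mp hcon).2
      rw [hb] at this
      exact absurd this (by decide)
    · exact h.mpr ⟨Finset.mem_univ _, hb⟩

section

variable {M : ℕ} (k₀ c : ℕ) (b : Fin M → Bool)

/-- linear part -/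
def linb (k : Fin M) : ℤ := if b k = true then -(2 * k₀ * c : ℕ) else 0

/-- quadratic part -/
def quadb (k l : Fin M) : ℤ := if b k = true ∧ b l = true then (2 * c : ℕ) else 0

theorem linb_le (k : Fin M) : |linb k₀ c b k| ≤ (2 * k₀ * c : ℕ) := by
  unfold linb
  split_ifs
  · rw [abs_neg, abs_of_nonneg (by positivity)]
  · rw [abs_zero]; positivity

theorem quadb_le (hk : 1 ≤ k₀) (k l : Fin M) : |quadb c b k l| ≤ (2 * k₀ * c : ℕ) := by
  have h : ((2 * c : ℕ) : ℤ) ≤ (2 * k₀ * c : ℕ) := by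
    exact_mod_cast Nat.mul_le_mul_right c (by omega : 2 ≤ 2 * k₀)
  unfold quadb
  split_ifs
  · rw [abs_of_nonneg (by positivity)]; exact h
  · rw [abs_zero]; positivity

theorem value_eq (β : Fin M → Bool) : value (linb k₀ c b) (quadb c b) β
    = -(c * (k₀ * (k₀ + 1))) + c * ((Gadget.cap β b - k₀) * (Gadget.cap β b - k₀ - 1)) := by
  obtain ⟨e, he⟩ : ∃ e : Fin M → Bool, e = fun i => decide (β i = true ∧ b i = true) := ⟨_, rfl⟩
  have hei : ∀ i, e i = true ↔ β i = true ∧ b i = true := by
    intro i; rw [he]; simp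
  have hcap : Gadget.cap β b = ∑ i, if e i = true then (1 : ℤ) else 0 := by
    unfold Gadget.cap
    exact Finset.sum_congr rfl fun i _ => by simp only [hei]
  unfold value
  have h1 : (∑ k, if β k = true then linb k₀ c b k else 0)
      = -((2 * k₀ * c : ℕ) * ∑ i, if e i = true then (1 : ℤ) else 0) := by
    rw [Finset.mul_sum, ← Finset.sum_neg_distrib]
    refine Finset.sum_congr rfl fun i _ => ?_
    unfold linb
    simp only [hei]
    by_cases hb : b i = true <;> by_cases ha : β i = true <;> simp [hb, ha]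
  have h2 : (∑ k, ∑ l, if k < l ∧ β k = true ∧ β l = true then quadb c b k l else 0)
      = ∑ i, ∑ j, if i < j ∧ e i = true ∧ e j = true then ((2 * c : ℕ) : ℤ) else 0 := by
    refine Finset.sum_congr rfl fun i _ => Finset.sum_congr rfl fun j _ => ?_
    unfold quadb
    simp only [hei]
    by_cases hij : i < j
    · by_cases hb : b i = true <;> by_cases ha : β i = true <;>
        by_cases hb' : b j = true <;> by_cases ha' : β j = true <;> simp [hb, ha, hb', ha', hij]
    · simp [hij]
  have h3 := Q.pairs_eq e ((2 * c : ℕ) : ℤ)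
  rw [h1, h2, ← hcap]
  rw [← hcap] at h3
  push_cast at h3 ⊢
  have h6 : (∑ i, ∑ j, if i < j ∧ e i = true ∧ e j = true then (2 * c : ℤ) else 0)
      = c * (Gadget.cap β b ^ 2 - Gadget.cap β b) := by linarith
  rw [h6]
  ring

theorem rpart_low (uh uv : ℕ → ℕ → Bool) :
    -((Q.size b * (2 * k₀ * c) : ℕ) : ℤ) ≤ rpart (linb k₀ c b) (quadb c b) uh uv := by
  unfold rpart
  have h1 : -((Q.size b * (2 * k₀ * c) : ℕ) : ℤ)
      ≤ ∑ k : Fin M, if uh (eK k).1 (eK k).2 = true then linb k₀ c b k else 0 := by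
    have e : -((Q.size b * (2 * k₀ * c) : ℕ) : ℤ)
        = ∑ k : Fin M, if b k = true then -((2 * k₀ * c : ℕ) : ℤ) else 0 := by
      rw [Q.sum_size]; push_cast; ring
    rw [e]
    refine Finset.sum_le_sum fun k _ => ?_
    unfold linb
    have h0 : (0 : ℤ) ≤ ((2 * k₀ * c : ℕ) : ℤ) := by positivity
    split_ifs <;> linarith
  have h2 : 0 ≤ ∑ k : Fin M × Fin M, if uv (rK k.1 k.2).1 (rK k.1 k.2).2 = true then
      (if k.1 < k.2 then quadb c b k.1 k.2 else 0) else 0 := by
    refine Finset.sum_nonneg fun k _ => ?_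
    unfold quadb
    split_ifs
    · positivity
    all_goals exact le_rfl
  linarith

/-- scale of the basic weights -/
def Wb (S : ℕ) : ℕ := S * (2 * k₀ * c) + 1

/-- the array with quadratic costs -/
noncomputable def arr (M k₀ c S : ℕ) (hk : 1 ≤ k₀) : GC (Fin M → Bool) {b : Fin M → Bool // Q.size b = S}
    (fun a b => c * ((Gadget.cap a b.1 - k₀) * (Gadget.cap a b.1 - k₀ - 1))) where
  n := (Vset (2 * M + 2)).card
  hn := card_ge M
  p := PN (2 * M + 2)
  hp := PN_inj _
  h b := wh (linb k₀ c b.1) (Wb k₀ c S)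
  v b := wv (quadb c b.1) (Wb k₀ c S)
  Cb := Wb k₀ c S + 2 * k₀ * c
  hC b x y := by
    have := wh_le (Wb k₀ c S : ℤ) (by positivity) (linb_le k₀ c b.1) x y
    push_cast at this ⊢
    exact this
  vC b x y := by
    have := wv_le (Wb k₀ c S : ℤ) (by positivity) (quadb_le k₀ c b.1 hk) x y
    push_cast at this ⊢
    exact this
  K := (Vset (2 * M + 2)).card * (Wb k₀ c S + 2 * k₀ * c)
  O _ := c0 M (Wb k₀ c S) - c * (k₀ * (k₀ + 1))
  low b σ := by
    have hW : (0 : ℤ) < Wb k₀ c S := by unfold Wb; positivity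
    have hO : (0 : ℤ) ≤ c * (k₀ * (k₀ + 1)) := by positivity
    by_cases hu : UnitTour (PN (2 * M + 2)) σ
    · rw [tcost_eq _ _ _ _ σ hu]
      by_cases hlt : cbase M (Wb k₀ c S) (useH (posN (2 * M + 2)) σ) (useV (posN (2 * M + 2)) σ) <
          c0 M (Wb k₀ c S) + Wb k₀ c S
      · have hu' := unit_posN hu
        obtain ⟨hd, hc⟩ := Pool.Agent.Helper68.ELP.d1 _ σ (card_ge M) hu'
        have hb := (cbase_low hW _ _).2 hlt
        have hg : Good (2 * M + 2) (useH (posN (2 * M + 2)) σ) (useV (posN (2 * M + 2)) σ) := by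
          exact {
            alwH := fun x y h => (hb (x, y) (useH_mem σ x y h)).1.1 h
            alwV := fun x y h => (hb (x, y) (useV_mem σ x y h)).2.1 h
            frcH := fun x y h => (hb (x, y) (mem_Vset.mpr (foH_ok h).2)).1.2 h
            frcV := fun x y h => (hb (x, y) (mem_Vset.mpr (foV_ok h).2)).2.2 h
            deg := hd
            nocyc := hc }
        rw [cbase_good hg, rpart_good _ _ hg, value_eq]
        set u := Gadget.cap (fun k : Fin M => useH (posN (2 * M + 2)) σ (eK k).1 (eK k).2) b.1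
        have h5 : (0 : ℤ) ≤ c * ((u - k₀) * (u - k₀ - 1)) :=
          mul_nonneg (by positivity) (Q.quad_nonneg u k₀)
        linarith
      · have h2 := rpart_low k₀ c b.1 (useH (posN (2 * M + 2)) σ) (useV (posN (2 * M + 2)) σ)
        have h3 := not_lt.mp hlt
        rw [b.2] at h2
        have h4 : ((S * (2 * k₀ * c) : ℕ) : ℤ) ≤ Wb k₀ c S := by
          unfold Wb; push_cast; linarith
        linarith
    · -- some step is not a unit step
      have hex : ∃ i, ¬ Nb (PN (2 * M + 2) (σ i)) (PN (2 * M + 2) (σ (finRotate _ i))) := by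
        by_contra hc
        push Not at hc
        exact hu hc
      obtain ⟨i, hi⟩ := hex
      obtain ⟨bd, hbd⟩ : ∃ bd : ℤ, bd = Wb k₀ c S + (2 * k₀ * c : ℕ) := ⟨_, rfl⟩
      have hh : ∀ x y, |wh (linb k₀ c b.1) (Wb k₀ c S) x y| ≤ bd := fun x y => by
        rw [hbd]; exact wh_le _ hW.le (linb_le k₀ c b.1) x y
      have hv : ∀ x y, |wv (quadb c b.1) (Wb k₀ c S) x y| ≤ bd := fun x y => by
        rw [hbd]; exact wv_le _ hW.le (quadb_le k₀ c b.1 hk) x y
      have hbd0 : 0 ≤ bd := by rw [hbd]; positivity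
      obtain ⟨K, hK⟩ : ∃ K : ℤ, K = (((Vset (2 * M + 2)).card * (Wb k₀ c S + 2 * k₀ * c) : ℕ) : ℤ) :=
        ⟨_, rfl⟩
      rw [← hK]
      have hK2 : K = ((Vset (2 * M + 2)).card : ℤ) * bd := by rw [hK, hbd]; push_cast; ring
      have hK0 : -bd ≤ K := by
        have : 0 ≤ K := by rw [hK2]; positivity
        linarith
      have hge : K - ((Vset (2 * M + 2)).card : ℤ) * bd ≤
          tcost (wh (linb k₀ c b.1) (Wb k₀ c S)) (wv (quadb c b.1) (Wb k₀ c S)) K
            (PN (2 * M + 2)) σ := by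
        unfold tcost
        rw [← Finset.add_sum_erase _ _ (Finset.mem_univ i)]
        have e1 : ucost (wh (linb k₀ c b.1) (Wb k₀ c S)) (wv (quadb c b.1) (Wb k₀ c S)) K
            (PN (2 * M + 2) (σ i)) (PN (2 * M + 2) (σ (finRotate _ i))) = K :=
          Pool.Agent.Helper68.LP.ucost_not hi
        rw [e1]
        have e2 : -(((Vset (2 * M + 2)).card : ℤ) * bd) ≤
            ∑ j ∈ Finset.univ.erase i, ucost (wh (linb k₀ c b.1) (Wb k₀ c S))
              (wv (quadb c b.1) (Wb k₀ c S)) K
              (PN (2 * M + 2) (σ j)) (PN (2 * M + 2) (σ (finRotate _ j))) := by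
          have e3 := Finset.card_nsmul_le_sum (Finset.univ.erase i)
            (fun j => ucost (wh (linb k₀ c b.1) (Wb k₀ c S)) (wv (quadb c b.1) (Wb k₀ c S)) K
              (PN (2 * M + 2) (σ j)) (PN (2 * M + 2) (σ (finRotate _ j)))) (-bd)
            (fun j _ => ucost_ge hh hv hK0 _ _)
          refine le_trans ?_ e3
          rw [nsmul_eq_mul]
          have e4 : ((Finset.univ.erase i).card : ℤ) ≤ (Vset (2 * M + 2)).card := by
            have : (Finset.univ.erase i).card ≤ (Vset (2 * M + 2)).card := by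
              have := Finset.card_erase_le (s := (Finset.univ : Finset (Fin (Vset (2 * M + 2)).card)))
                (a := i)
              rwa [Finset.card_univ, Fintype.card_fin] at this
            exact_mod_cast this
          nlinarith
        linarith
      have hc0 := c0_nonpos (M := M) hW
      linarith
  tour a := (exists_tour M a).choose
  unit a := (exists_tour M a).choose_spec.1
  val a b := by
    obtain ⟨hu, hg, hβ⟩ := (exists_tour M a).choose_spec
    rw [tcost_eq _ _ _ _ _ hu, cbase_good hg, rpart_good _ _ hg, value_eq]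
    have e : (fun k : Fin M => useH (posN (2 * M + 2)) (exists_tour M a).choose
        (eK k).1 (eK k).2) = a := funext hβ
    rw [e]
    ring

theorem arr_n (M k₀ c S : ℕ) (hk : 1 ≤ k₀) : (arr M k₀ c S hk).n ≤ 400 * (M + 2) ^ 2 := card_le M

theorem arr_box (M k₀ c S : ℕ) (hk : 1 ≤ k₀) (i : Fin (arr M k₀ c S hk).n) :
    ((arr M k₀ c S hk).p i).1 ≤ 20 * M + 40 ∧ ((arr M k₀ c S hk).p i).2 ≤ 20 * M + 40 := by
  have h := PN_mem (2 * M + 2) i
  change (PN (2 * M + 2) i).1 ≤ 20 * M + 40 ∧ (PN (2 * M + 2) i).2 ≤ 20 * M + 40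
  unfold Vset at h
  rw [Finset.mem_filter, Finset.mem_product, Finset.mem_range, Finset.mem_range] at h
  omega

end

end Pool.Agent.Helper68.SDX
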