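import Pool.Agent.Helper36.SDP.PO
import Pool.Agent.Helper68.SDP.Base

set_option autoImplicit false

/-!
# Chebyshev polynomials of positive semidefinite matrices
-/

namespace Pool.Agent.Helper68.SDX

open Matrix Finset Pool.Agent.Helper68.SDP Pool.Agent.Helper36.SDP

/-- growth of the Chebyshev polynomials -/
theorem T_ge {K : ℕ} {s x : ℝ} (hs : 0 ≤ s) (hx : Real.cosh s ≤ x) :
    Real.exp (K * s) / 2 ≤ (Polynomial.Chebyshev.T ℝ K).eval x := by
  have hx1 : 1 ≤ x := (Real.one_le_cosh s).trans hx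
  obtain ⟨u, hu0, hu⟩ : ∃ u, 0 ≤ u ∧ Real.cosh u = x :=
    ⟨Real.arcosh x, Real.arcosh_nonneg hx1, Real.cosh_arcosh hx1⟩
  have hsu : s ≤ u := by
    rw [← hu, Real.cosh_le_cosh, abs_of_nonneg hs, abs_of_nonneg hu0] at hx
    exact hx
  rw [← hu, Polynomial.Chebyshev.T_real_cosh, Real.cosh_eq]
  have h1 : Real.exp (K * s) ≤ Real.exp (((K : ℤ) : ℝ) * u) := by
    apply Real.exp_le_exp.mpr
    push_cast
    exact mul_le_mul_of_nonneg_left hsu (by positivity)
  have h2 := Real.exp_pos (-(((K : ℤ) : ℝ) * u))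
  linarith

/-- the polynomial used below -/
theorem exists_poly (K : ℕ) {θ s θ' : ℝ} (hθ : 0 < θ) (hs : 0 ≤ s) (hs1 : s ≤ 1)
    (h : s ^ 2 * θ / 2 ≤ θ' - θ) :
    ∃ p : Polynomial ℝ, p.natDegree ≤ K ∧ (∀ l, 0 ≤ l → l ≤ θ → |p.eval l| ≤ 1) ∧
      ∀ l, θ' ≤ l → Real.exp (K * s) / 2 ≤ p.eval l := by
  refine ⟨(Polynomial.Chebyshev.T ℝ K).comp (Polynomial.C (2 / θ) * Polynomial.X
    - Polynomial.C 1), ?_, fun l h0 h1 => ?_, fun l hl => ?_⟩
  · refine Polynomial.natDegree_comp_le.trans ?_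
    rw [Polynomial.Chebyshev.natDegree_T]
    have h1 : (Polynomial.C (2 / θ) * Polynomial.X - Polynomial.C 1 : Polynomial ℝ).natDegree ≤ 1 := by
      refine (Polynomial.natDegree_sub_le _ _).trans ?_
      simp only [Polynomial.natDegree_C, max_le_iff]
      exact ⟨(Polynomial.natDegree_C_mul_le _ _).trans Polynomial.natDegree_X_le, by norm_num⟩
    calc Int.natAbs (K : ℤ) * _ ≤ K * 1 := by
          rw [Int.natAbs_natCast]
          exact Nat.mul_le_mul_left _ h1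
      _ = K := mul_one K
  · rw [Polynomial.eval_comp]
    apply Polynomial.Chebyshev.abs_eval_T_real_le_one
    simp only [Polynomial.eval_sub, Polynomial.eval_mul, Polynomial.eval_C, Polynomial.eval_X]
    rw [abs_le]
    constructor
    · have : 0 ≤ 2 / θ * l := by positivity
      linarith
    · have : 2 / θ * l ≤ 2 / θ * θ := mul_le_mul_of_nonneg_left h1 (by positivity)
      have e : 2 / θ * θ = 2 := by field_simp
      linarith
  · rw [Polynomial.eval_comp]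
    apply T_ge hs
    simp only [Polynomial.eval_sub, Polynomial.eval_mul, Polynomial.eval_C, Polynomial.eval_X]
    have h1 : Real.cosh s ≤ 1 + s ^ 2 := by
      refine (Real.cosh_le_exp_half_sq s).trans ?_
      have h2 : Real.exp (s ^ 2 / 2) ≤ 1 / (1 - s ^ 2 / 2) := by
        rw [le_div_iff₀ (by nlinarith)]
        have h3 := Real.add_one_le_exp (-(s ^ 2 / 2))
        have h4 : Real.exp (s ^ 2 / 2) * Real.exp (-(s ^ 2 / 2)) = 1 := by
          rw [← Real.exp_add]; simp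
        have h5 := Real.exp_pos (s ^ 2 / 2)
        nlinarith
      refine h2.trans ?_
      rw [div_le_iff₀ (by nlinarith)]
      have h6 : s ^ 2 ≤ 1 := by nlinarith
      nlinarith [sq_nonneg s]
    refine h1.trans ?_
    have h2 : θ + s ^ 2 * θ / 2 ≤ l := by linarith
    have h3 : 2 / θ * (θ + s ^ 2 * θ / 2) ≤ 2 / θ * l := mul_le_mul_of_nonneg_left h2 (by positivity)
    have e : 2 / θ * (θ + s ^ 2 * θ / 2) = 2 + s ^ 2 := by field_simp
    linarith

theorem trace_aeval_mul {r : ℕ} {A U : Matrix (Fin r) (Fin r) ℝ} {lam : Fin r → ℝ}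
    (h1 : Uᵀ * U = 1) (h2 : U * Uᵀ = 1) (hA : A = U * diagonal lam * Uᵀ)
    (Q : Matrix (Fin r) (Fin r) ℝ) (q : Polynomial ℝ) :
    (Polynomial.aeval A q * Q).trace = ∑ i, q.eval (lam i) * (Uᵀ * Q * U) i i := by
  rw [Polynomial.aeval_eq_sum_range, Matrix.sum_mul, trace_sum]
  have h3 : ∀ k, (q.coeff k • A ^ k * Q).trace = ∑ i, q.coeff k * (lam i ^ k * (Uᵀ * Q * U) i i) := by
    intro k
    rw [Matrix.smul_mul, trace_smul, trace_pow_mul h1 h2 hA, smul_eq_mul, mul_sum]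
  rw [sum_congr rfl fun k _ => h3 k, sum_comm]
  refine sum_congr rfl fun i _ => ?_
  rw [Polynomial.eval_eq_sum_range, sum_mul]
  exact sum_congr rfl fun k _ => by ring

theorem trace_aeval {r : ℕ} {A U : Matrix (Fin r) (Fin r) ℝ} {lam : Fin r → ℝ}
    (h1 : Uᵀ * U = 1) (h2 : U * Uᵀ = 1) (hA : A = U * diagonal lam * Uᵀ) (q : Polynomial ℝ) :
    (Polynomial.aeval A q).trace = ∑ i, q.eval (lam i) := by
  have h := trace_aeval_mul h1 h2 hA 1 q
  rw [Matrix.mul_one, Matrix.mul_one, h1] at h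
  rw [h]
  exact sum_congr rfl fun i _ => by rw [Matrix.one_apply_eq, mul_one]

/-- the spectral step -/
theorem spectral {X : Type} [Fintype X] {r : ℕ} (A Q : X → Matrix (Fin r) (Fin r) ℝ)
    (hA : ∀ x, (A x).PosSemidef) (hQ : ∀ x, (Q x).PosSemidef) {c θ₁ θ₂ θ' G : ℝ} (hc : 0 < c)
    (h0 : 0 ≤ θ₂) (h2 : θ₂ ≤ θ') (h1 : θ' < θ₁) (hG : 0 < G)
    (hcQ : ∀ x, (c • (1 : Matrix (Fin r) (Fin r) ℝ) - Q x).PosSemidef)
    (hT0 : 0 < ∑ x, (Q x).trace) (hT : θ₁ * ∑ x, (Q x).trace ≤ ∑ x, (A x * Q x).trace)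
    {p : Polynomial ℝ} (hp1 : ∀ l, 0 ≤ l → l ≤ θ₂ → |p.eval l| ≤ 1)
    (hp2 : ∀ l, θ' ≤ l → G ≤ p.eval l)
    (hbig : c * (θ₂ * (r * Fintype.card X)) ≤ G ^ 2 * ((θ₁ - θ') * ∑ x, (Q x).trace)) :
    θ₂ * ∑ x, (Polynomial.aeval (A x) p ^ 2).trace
      ≤ ∑ x, (A x * Polynomial.aeval (A x) p ^ 2).trace ∧
    0 < ∑ x, (Polynomial.aeval (A x) p ^ 2).trace := by
  have hsp := fun x => spec_real (A x) (hA x)
  choose U lam hlam hU1 hU2 hAx using hsp
  set w : X × Fin r → ℝ := fun q => ((U q.1)ᵀ * Q q.1 * U q.1) q.2 q.2 with hwdef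
  set z : X × Fin r → ℝ := fun q => lam q.1 q.2 with hzdef
  have hw0 : ∀ q, 0 ≤ w q := fun q => conj_diag_nonneg _ _ (hQ q.1) q.2
  have hwc : ∀ q, w q ≤ c := fun q => conj_diag_le _ _ c (hcQ q.1) (hU1 q.1) q.2
  have hz0 : ∀ q, 0 ≤ z q := fun q => hlam q.1 q.2
  have e1 : ∑ x, (Polynomial.aeval (A x) p ^ 2).trace = ∑ q, p.eval (z q) ^ 2 := by
    rw [Fintype.sum_prod_type]
    refine sum_congr rfl fun x _ => ?_
    have := trace_aeval (hU1 x) (hU2 x) (hAx x) (p ^ 2)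
    rw [map_pow] at this
    rw [this]
    exact sum_congr rfl fun i _ => by rw [Polynomial.eval_pow]
  have e2 : ∑ x, (A x * Polynomial.aeval (A x) p ^ 2).trace = ∑ q, z q * p.eval (z q) ^ 2 := by
    rw [Fintype.sum_prod_type]
    refine sum_congr rfl fun x _ => ?_
    have := trace_aeval (hU1 x) (hU2 x) (hAx x) (Polynomial.X * p ^ 2)
    rw [map_mul, map_pow, Polynomial.aeval_X] at this
    rw [this]
    exact sum_congr rfl fun i _ => by
      rw [Polynomial.eval_mul, Polynomial.eval_pow, Polynomial.eval_X]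
  have e3 : ∑ x, (A x * Q x).trace = ∑ q, w q * z q := by
    rw [Fintype.sum_prod_type]
    refine sum_congr rfl fun x _ => ?_
    have := trace_pow_mul (hU1 x) (hU2 x) (hAx x) (Q x) 1
    rw [pow_one] at this
    rw [this]
    exact sum_congr rfl fun i _ => by rw [pow_one, mul_comm]
  have e4 : ∑ x, (Q x).trace = ∑ q, w q := by
    rw [Fintype.sum_prod_type]
    refine sum_congr rfl fun x _ => ?_
    have := trace_pow_mul (hU1 x) (hU2 x) (hAx x) (Q x) 0
    rw [pow_zero, Matrix.one_mul] at this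
    rw [this]
    exact sum_congr rfl fun i _ => by rw [pow_zero, one_mul]
  have e5 : ((r : ℝ) * Fintype.card X) = ∑ _q : X × Fin r, (1 : ℝ) := by
    rw [sum_const, card_univ, Fintype.card_prod, Fintype.card_fin, nsmul_eq_mul]
    push_cast
    ring
  rw [e1, e2]
  rw [e3] at hT
  rw [e4] at hT hT0 hbig
  rw [e5] at hbig
  -- scalar inequality
  have hsc : ∀ q, G ^ 2 * (w q * (z q - θ')) - c * θ₂ ≤ c * ((z q - θ₂) * p.eval (z q) ^ 2) := by
    intro q
    rcases le_or_gt (z q) θ' with h | h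
    · have h3 : G ^ 2 * (w q * (z q - θ')) ≤ 0 :=
        mul_nonpos_of_nonneg_of_nonpos (sq_nonneg _)
          (mul_nonpos_of_nonneg_of_nonpos (hw0 q) (by linarith))
      rcases le_or_gt (z q) θ₂ with h4 | h4
      · have h5 := hp1 (z q) (hz0 q) h4
        have h6 : p.eval (z q) ^ 2 ≤ 1 := by
          rw [← sq_abs]
          exact pow_le_one₀ (abs_nonneg _) h5
        have h7 : (θ₂ - z q) * p.eval (z q) ^ 2 ≤ θ₂ * 1 :=
          mul_le_mul (by linarith [hz0 q]) h6 (sq_nonneg _) h0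
        nlinarith
      · have h5 : 0 ≤ c * ((z q - θ₂) * p.eval (z q) ^ 2) :=
          mul_nonneg hc.le (mul_nonneg (by linarith) (sq_nonneg _))
        have h6 : 0 ≤ c * θ₂ := mul_nonneg hc.le h0
        linarith
    · have h5 := hp2 (z q) h.le
      have h6 : G ^ 2 ≤ p.eval (z q) ^ 2 := pow_le_pow_left₀ hG.le h5 2
      have h7 : w q * (z q - θ') ≤ c * (z q - θ₂) :=
        mul_le_mul (hwc q) (by linarith) (by linarith) hc.le
      have h8 : 0 ≤ c * (z q - θ₂) := mul_nonneg hc.le (by linarith)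
      have h9 : G ^ 2 * (w q * (z q - θ')) ≤ G ^ 2 * (c * (z q - θ₂)) :=
        mul_le_mul_of_nonneg_left h7 (sq_nonneg _)
      have h10 : G ^ 2 * (c * (z q - θ₂)) ≤ p.eval (z q) ^ 2 * (c * (z q - θ₂)) :=
        mul_le_mul_of_nonneg_right h6 h8
      have h11 : 0 ≤ c * θ₂ := mul_nonneg hc.le h0
      nlinarith
  have hsum := sum_le_sum fun q (_ : q ∈ (univ : Finset (X × Fin r))) => hsc q
  have hs1 : ∑ q, (G ^ 2 * (w q * (z q - θ')) - c * θ₂)
      = G ^ 2 * ∑ q, w q * (z q - θ') - ∑ _q : X × Fin r, c * θ₂ := by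
    rw [sum_sub_distrib, ← mul_sum]
  have hs2 : ∑ q, c * ((z q - θ₂) * p.eval (z q) ^ 2)
      = c * ∑ q, (z q - θ₂) * p.eval (z q) ^ 2 := by
    rw [← mul_sum]
  rw [hs1, hs2] at hsum
  have e6 : ∑ q, w q * (z q - θ') = ∑ q, w q * z q - θ' * ∑ q, w q := by
    rw [mul_sum, ← sum_sub_distrib]
    exact sum_congr rfl fun q _ => by ring
  have e7 : ∑ q, (z q - θ₂) * p.eval (z q) ^ 2
      = ∑ q, z q * p.eval (z q) ^ 2 - θ₂ * ∑ q, p.eval (z q) ^ 2 := by
    rw [mul_sum, ← sum_sub_distrib]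
    exact sum_congr rfl fun q _ => by ring
  have e8 : ∑ _q : X × Fin r, c * θ₂ = c * (θ₂ * ∑ _q : X × Fin r, (1 : ℝ)) := by
    rw [mul_sum, mul_sum]
    exact sum_congr rfl fun q _ => by ring
  rw [e6, e7, e8] at hsum
  have h12 : (θ₁ - θ') * ∑ q, w q ≤ ∑ q, w q * z q - θ' * ∑ q, w q := by linarith
  constructor
  · have h13 : G ^ 2 * ((θ₁ - θ') * ∑ q, w q) ≤ G ^ 2 * (∑ q, w q * z q - θ' * ∑ q, w q) :=
      mul_le_mul_of_nonneg_left h12 (sq_nonneg _)
    have h14 : 0 ≤ c * (∑ q, z q * p.eval (z q) ^ 2 - θ₂ * ∑ q, p.eval (z q) ^ 2) := by linarith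
    have h15 := nonneg_of_mul_nonneg_right h14 hc
    linarith
  · -- some eigenvalue is large
    have h16 : 0 < ∑ q, w q * (z q - θ') := by
      rw [e6]
      have : 0 < (θ₁ - θ') * ∑ q, w q := mul_pos (by linarith) hT0
      linarith
    obtain ⟨q, h17⟩ : ∃ q, θ' < z q := by
      by_contra hcon
      push Not at hcon
      have : ∑ q, w q * (z q - θ') ≤ 0 := sum_nonpos fun q _ =>
        mul_nonpos_of_nonneg_of_nonpos (hw0 q) (by linarith [hcon q])
      linarith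
    have h18 := hp2 (z q) h17.le
    have h19 : 0 < p.eval (z q) ^ 2 := by
      have : 0 < p.eval (z q) := hG.trans_le h18
      positivity
    exact h19.trans_le (single_le_sum (f := fun q => p.eval (z q) ^ 2)
      (fun q _ => sq_nonneg _) (mem_univ q))

end Pool.Agent.Helper68.SDX
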