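import Pool.Agent.Helper68.SDX.Row
import Pool.Agent.Helper68.SDX.Cheb
import Pool.Agent.Helper68.SDP.LRS

set_option autoImplicit false

/-!
# The core of the matrix theorem, with Chebyshev polynomials
-/

namespace Pool.Agent.Helper68.SDX

open Matrix Finset Pool.Agent.Helper68.SDP Pool.Agent.Helper61.SDPFO

/-- degrees of the entries of polynomials of a matrix -/
theorem rdeg_pow {m N r : ℕ} (A : (Fin m × Fin N → Bool) → Matrix (Fin r) (Fin r) ℝ)
    (hA : ∀ i j, (fun x => A x i j) ∈ RDeg m N 1) (k : ℕ) :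
    ∀ i j, (fun x => (A x ^ k) i j) ∈ RDeg m N k := by
  induction k with
  | zero =>
    intro i j
    have : (fun x => (A x ^ 0) i j) = fun _ => (1 : Matrix (Fin r) (Fin r) ℝ) i j := by
      funext x; rw [pow_zero]
    rw [this]
    exact rdeg_const _ _
  | succ k ih =>
    intro i j
    have : (fun x => (A x ^ (k + 1)) i j) = ∑ l, fun x => (A x ^ k) i l * A x l j := by
      funext x
      rw [pow_succ, mul_apply, Finset.sum_apply]
    rw [this]
    exact Submodule.sum_mem _ fun l _ => rdeg_mul _ _ _ _ (ih i l) (hA l j)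

theorem rdeg_aeval {m N r K : ℕ} (A : (Fin m × Fin N → Bool) → Matrix (Fin r) (Fin r) ℝ)
    (hA : ∀ i j, (fun x => A x i j) ∈ RDeg m N 1) {p : Polynomial ℝ} (hp : p.natDegree ≤ K) :
    ∀ i j, (fun x => (Polynomial.aeval (A x) p) i j) ∈ RDeg m N K := by
  intro i j
  have : (fun x => (Polynomial.aeval (A x) p) i j)
      = ∑ k ∈ range (p.natDegree + 1), p.coeff k • fun x => (A x ^ k) i j := by
    funext x
    rw [Polynomial.aeval_eq_sum_range, Matrix.sum_apply, Finset.sum_apply]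
    exact sum_congr rfl fun k _ => rfl
  rw [this]
  refine Submodule.sum_mem _ fun k hk => Submodule.smul_mem _ _ ?_
  have hk' := mem_range.mp hk
  exact rdeg_mono (by omega) (rdeg_pow A hA k i j)

theorem core {m t N r K : ℕ} (hN : 1 ≤ N)
    (D : (Fin m → Bool) → ℝ) (hps : Pseudo m t D) {D₀ ε β c θ' G : ℝ} (hD₀ : 0 < D₀) (hε : 0 < ε)
    (hβ : 0 < β) (hc : 0 < c) (hG : 0 < G) (hD : ∀ z, |D z| ≤ D₀)
    (P : (Fin m → Fin N) → Matrix (Fin r) (Fin r) ℝ)
    (Q : (Fin m × Fin N → Bool) → Matrix (Fin r) (Fin r) ℝ)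
    (hP : ∀ φ, (P φ).PosSemidef) (hQ : ∀ x, (Q x).PosSemidef)
    (hPr : ∀ φ, (β • (1 : Matrix (Fin r) (Fin r) ℝ) - P φ).PosSemidef)
    (hPs : ((Fintype.card (Fin m → Fin N) : ℝ) • (1 : Matrix (Fin r) (Fin r) ℝ)
      - ∑ φ, P φ).PosSemidef)
    (hQr : ∀ x, (c • (1 : Matrix (Fin r) (Fin r) ℝ) - Q x).PosSemidef)
    (hT0 : 0 < ∑ x, (Q x).trace)
    (hPQ : ∑ φ, ∑ x, D (sel φ x) * (P φ * Q x).trace
      ≤ -(ε * ((Fintype.card (Fin m → Fin N) : ℝ) * ∑ x, (Q x).trace)))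
    {p : Polynomial ℝ} (hp : p.natDegree ≤ K)
    (hp1 : ∀ l, 0 ≤ l → l ≤ D₀ + ε / 2 → |p.eval l| ≤ 1)
    (hp2 : ∀ l, θ' ≤ l → G ≤ p.eval l) (hθ1 : D₀ + ε / 2 ≤ θ') (hθ2 : θ' < D₀ + ε)
    (hbig : c * ((D₀ + ε / 2) * (r * Fintype.card (Fin m × Fin N → Bool)))
      ≤ G ^ 2 * ((D₀ + ε - θ') * ∑ x, (Q x).trace)) :
    ε / 4 * (N : ℝ) ^ (t + 1) ≤ D₀ * (2 * (ε / (8 * D₀)) + 1 + 1 / (ε / (8 * D₀)))
      * (β * (2 ^ m * (K : ℝ) ^ (t + 1))) := by
  classical
  have : Nonempty (Fin m → Fin N) := ⟨fun _ => ⟨0, by omega⟩⟩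
  set nF : ℝ := (Fintype.card (Fin m → Fin N) : ℝ) with hnF
  have hnF0 : 0 < nF := Nat.cast_pos.mpr Fintype.card_pos
  have hnFN : nF = (N : ℝ) ^ m := by rw [hnF]; simp
  set T : ℝ := ∑ x, (Q x).trace with hTdef
  -- the test operator
  set L : (Fin m × Fin N → Bool) → Matrix (Fin r) (Fin r) ℝ := fun x =>
    (1 / nF) • ∑ φ, D (sel φ x) • P φ with hL
  set A : (Fin m × Fin N → Bool) → Matrix (Fin r) (Fin r) ℝ := fun x =>
    D₀ • (1 : Matrix (Fin r) (Fin r) ℝ) - L x with hA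
  have hApsd : ∀ x, (A x).PosSemidef := by
    intro x
    have e : A x = (1 / nF) • (D₀ • (nF • (1 : Matrix (Fin r) (Fin r) ℝ) - ∑ φ, P φ)
        + ∑ φ, (D₀ - D (sel φ x)) • P φ) := by
      simp only [hA, hL, sub_smul, sum_sub_distrib, smul_sub, smul_add, ← smul_sum, smul_smul]
      have e1 : 1 / nF * (D₀ * nF) = D₀ := by field_simp
      rw [e1]
      abel
    rw [e]
    refine (((hPs.smul hD₀.le).add (psd_sum fun φ => ?_))).smul (by positivity)
    exact (hP φ).smul (sub_nonneg.mpr ((le_abs_self _).trans (hD _)))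
  -- the expectation of the test operator
  have hAQ : (D₀ + ε) * T ≤ ∑ x, (A x * Q x).trace := by
    have e1 : ∀ x, (A x * Q x).trace = D₀ * (Q x).trace
        - 1 / nF * ∑ φ, D (sel φ x) * (P φ * Q x).trace := by
      intro x
      simp only [hA, hL]
      rw [Matrix.sub_mul, trace_sub, smul_mul_assoc, Matrix.one_mul, trace_smul, smul_eq_mul,
        smul_mul_assoc, trace_smul, smul_eq_mul, Matrix.sum_mul, trace_sum]
      congr 2
      refine sum_congr rfl fun φ _ => ?_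
      rw [smul_mul_assoc, trace_smul, smul_eq_mul]
    simp only [e1]
    rw [sum_sub_distrib, ← mul_sum, ← mul_sum, sum_comm]
    have e2 : 1 / nF * ∑ φ, ∑ x, D (sel φ x) * (P φ * Q x).trace
        ≤ 1 / nF * -(ε * (nF * T)) := mul_le_mul_of_nonneg_left hPQ (by positivity)
    have e3 : 1 / nF * -(ε * (nF * T)) = -(ε * T) := by field_simp
    rw [e3] at e2
    linarith
  -- the polynomial
  set R : (Fin m × Fin N → Bool) → Matrix (Fin r) (Fin r) ℝ := fun x =>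
    Polynomial.aeval (A x) p with hR
  obtain ⟨h12, hρ⟩ := spectral A Q hApsd hQ (c := c) (θ₁ := D₀ + ε) (θ₂ := D₀ + ε / 2) (θ' := θ')
    (G := G) hc (by positivity) hθ1 hθ2 hG hQr hT0 hAQ hp1 hp2 hbig
  set ρ : ℝ := ∑ x, (R x ^ 2).trace with hρdef
  change (D₀ + ε / 2) * ρ ≤ ∑ x, (A x * R x ^ 2).trace at h12
  change 0 < ρ at hρ
  have hAt : ∀ x, (A x)ᵀ = A x := fun x => by
    have := (hApsd x).isHermitian.eq
    rwa [conjTranspose_eq_transpose_of_trivial] at this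
  have hRt : ∀ x, (R x)ᵀ = R x := by
    intro x
    simp only [hR]
    rw [Polynomial.aeval_eq_sum_range, transpose_sum]
    refine sum_congr rfl fun k _ => ?_
    rw [transpose_smul, transpose_pow, hAt]
  have hRR : ∀ x, R x * (R x)ᵀ = R x ^ 2 := by
    intro x
    rw [hRt, sq]
  have hLR : ∑ x, (L x * (R x * (R x)ᵀ)).trace ≤ -(ε / 2 * ρ) := by
    have e1 : ∀ x, (L x * (R x * (R x)ᵀ)).trace
        = D₀ * (R x ^ 2).trace - (A x * R x ^ 2).trace := by
      intro x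
      have e2 : L x = D₀ • (1 : Matrix (Fin r) (Fin r) ℝ) - A x := by
        simp only [hA]; abel
      rw [hRR, e2, Matrix.sub_mul, trace_sub, smul_mul_assoc, Matrix.one_mul, trace_smul,
        smul_eq_mul]
    simp only [e1]
    rw [sum_sub_distrib, ← mul_sum]
    change D₀ * ρ - _ ≤ _
    linarith
  have hLR2 : ∑ x, (L x * (R x * (R x)ᵀ)).trace
      = 1 / nF * ∑ φ, ∑ x, D (sel φ x) * (P φ * (R x * (R x)ᵀ)).trace := by
    have e1 : ∀ x, (L x * (R x * (R x)ᵀ)).trace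
        = 1 / nF * ∑ φ, D (sel φ x) * (P φ * (R x * (R x)ᵀ)).trace := by
      intro x
      simp only [hL]
      rw [smul_mul_assoc, trace_smul, smul_eq_mul, Matrix.sum_mul, trace_sum]
      congr 1
      refine sum_congr rfl fun φ _ => ?_
      rw [smul_mul_assoc, trace_smul, smul_eq_mul]
    simp only [e1]
    rw [← mul_sum, sum_comm]
  have hrho : ∑ x, ∑ i, ∑ j, R x i j ^ 2 = ρ := by
    rw [hρdef]
    refine sum_congr rfl fun x _ => ?_
    rw [← hRR, trace_mul_transpose]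
    rfl
  -- degrees
  have hdegA : ∀ i j, (fun x => A x i j) ∈ RDeg m N 1 := by
    intro i j
    have e : (fun x => A x i j) = (fun _ => D₀ * (1 : Matrix (Fin r) (Fin r) ℝ) i j)
        - (1 / nF) • ∑ φ, (P φ i j) • fun x => D (sel φ x) := by
      funext x
      simp only [hA, hL, Matrix.sub_apply, Matrix.smul_apply, Matrix.sum_apply, smul_eq_mul,
        Pi.sub_apply, Pi.smul_apply, Finset.sum_apply]
      congr 2
      exact sum_congr rfl fun φ _ => mul_comm _ _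
    rw [e]
    refine Submodule.sub_mem _ (rdeg_const _ _) (Submodule.smul_mem _ _
      (Submodule.sum_mem _ fun φ _ => Submodule.smul_mem _ _ (rdeg_sel D φ)))
  have hdegR := rdeg_aeval A hdegA hp
  -- splitting
  set s : ℝ := ε / (8 * D₀) with hs
  have hs0 : 0 < s := by positivity
  have htest := fun φ => one_test (low t φ) (fun x => D (sel φ x)) (low_nonneg t D hps φ)
    (fun x => hD _) hs0 (hP φ) (hPr φ) R
  have hsum := sum_le_sum fun φ (_ : φ ∈ (univ : Finset (Fin m → Fin N))) => htest φ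
  simp only [sum_neg_distrib, sum_add_distrib, ← mul_sum] at hsum
  have hS1 : ∑ φ, ∑ x, (P φ * (R x * (R x)ᵀ)).trace ≤ nF * ρ := by
    rw [sum_comm]
    have e1 : ∀ x, ∑ φ, (P φ * (R x * (R x)ᵀ)).trace ≤ nF * (R x ^ 2).trace := by
      intro x
      have e2 : (R x ^ 2).PosSemidef := by
        rw [← hRR]
        have := psd_transpose_mul (R x)ᵀ
        rwa [transpose_transpose] at this
      rw [hRR, ← trace_sum, ← Matrix.sum_mul]
      exact trace_mul_le hPs e2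
    refine (sum_le_sum fun x _ => e1 x).trans ?_
    rw [← mul_sum]
  have hS2 : (∑ φ, ∑ x, ∑ i, ∑ j, (R x i j - low t φ (fun x => R x i j) x) ^ 2)
        * (N : ℝ) ^ (t + 1)
      ≤ 2 ^ m * (K : ℝ) ^ (t + 1) * (N : ℝ) ^ m * ρ := by
    have e1 : ∀ i j, (∑ φ : Fin m → Fin N, ∑ x, (R x i j - low t φ (fun x => R x i j) x) ^ 2)
          * (N : ℝ) ^ (t + 1)
        ≤ 2 ^ m * (K : ℝ) ^ (t + 1) * (N : ℝ) ^ m * ∑ x, R x i j ^ 2 := fun i j =>
      high_le (fun x => R x i j) (hdegR i j)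
    have e2 := sum_le_sum fun i (_ : i ∈ (univ : Finset (Fin r))) =>
      sum_le_sum fun j (_ : j ∈ (univ : Finset (Fin r))) => e1 i j
    simp only [← sum_mul, ← mul_sum] at e2
    have swap : ∀ g : Fin r → Fin r → (Fin m × Fin N → Bool) → ℝ,
        ∑ i, ∑ j, ∑ x, g i j x = ∑ x, ∑ i, ∑ j, g i j x := by
      intro g
      calc ∑ i, ∑ j, ∑ x, g i j x = ∑ i, ∑ x, ∑ j, g i j x := sum_congr rfl fun i _ => sum_comm
        _ = ∑ x, ∑ i, ∑ j, g i j x := sum_comm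
    have swap4 : ∀ g : Fin r → Fin r → (Fin m → Fin N) → (Fin m × Fin N → Bool) → ℝ,
        ∑ i, ∑ j, ∑ φ, ∑ x, g i j φ x = ∑ φ, ∑ x, ∑ i, ∑ j, g i j φ x := by
      intro g
      calc ∑ i, ∑ j, ∑ φ, ∑ x, g i j φ x = ∑ i, ∑ φ, ∑ j, ∑ x, g i j φ x :=
            sum_congr rfl fun i _ => sum_comm
        _ = ∑ φ, ∑ i, ∑ j, ∑ x, g i j φ x := sum_comm
        _ = ∑ φ, ∑ x, ∑ i, ∑ j, g i j φ x := sum_congr rfl fun φ _ => swap _
    rw [swap, swap4, hrho] at e2
    exact e2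
  -- conclusion
  set Z := ∑ φ, ∑ x, ∑ i, ∑ j, (R x i j - low t φ (fun x => R x i j) x) ^ 2 with hZ
  set Y := ∑ φ, ∑ x, (P φ * (R x * (R x)ᵀ)).trace with hY
  set W := ∑ φ, ∑ x, D (sel φ x) * (P φ * (R x * (R x)ᵀ)).trace with hW
  rw [hLR2] at hLR
  have h20 : W ≤ -(ε / 2 * ρ * nF) := by
    have h21 : nF * (1 / nF * W) ≤ nF * -(ε / 2 * ρ) := mul_le_mul_of_nonneg_left hLR hnF0.le
    have h22 : nF * (1 / nF * W) = W := by field_simp
    rw [h22] at h21
    linarith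
  set c₃ : ℝ := 2 * s + 1 + 1 / s with hc₃
  have hc₃0 : 0 < c₃ := by positivity
  have h23 : ε / 2 * ρ * nF ≤ D₀ * (2 * s * Y + c₃ * (β * Z)) := by linarith
  have h24 : D₀ * (2 * s * Y) ≤ ε / 4 * ρ * nF := by
    have h25 : D₀ * (2 * s * Y) ≤ D₀ * (2 * s * (nF * ρ)) := by
      apply mul_le_mul_of_nonneg_left _ hD₀.le
      exact mul_le_mul_of_nonneg_left hS1 (by positivity)
    have h26 : D₀ * (2 * s * (nF * ρ)) = ε / 4 * ρ * nF := by
      rw [hs]; field_simp; ring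
    linarith
  have h27 : ε / 4 * ρ * nF ≤ D₀ * c₃ * (β * Z) := by
    have : D₀ * (2 * s * Y + c₃ * (β * Z))
        = D₀ * (2 * s * Y) + D₀ * c₃ * (β * Z) := by ring
    rw [this] at h23
    have e : ε / 2 * ρ * nF = ε / 4 * ρ * nF + ε / 4 * ρ * nF := by ring
    linarith
  have hNt : (0 : ℝ) < (N : ℝ) ^ (t + 1) := by
    have : (0 : ℝ) < N := by exact_mod_cast hN
    positivity
  have h28 : ε / 4 * ρ * nF * (N : ℝ) ^ (t + 1)
      ≤ D₀ * c₃ * (β * (2 ^ m * (K : ℝ) ^ (t + 1) * nF * ρ)) := by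
    calc ε / 4 * ρ * nF * (N : ℝ) ^ (t + 1) ≤ D₀ * c₃ * (β * Z) * (N : ℝ) ^ (t + 1) :=
          mul_le_mul_of_nonneg_right h27 hNt.le
      _ = D₀ * c₃ * (β * (Z * (N : ℝ) ^ (t + 1))) := by ring
      _ ≤ _ := by
          rw [hnFN]
          apply mul_le_mul_of_nonneg_left _ (by positivity)
          exact mul_le_mul_of_nonneg_left hS2 (by positivity)
  have h29 : (ρ * nF) * (ε / 4 * (N : ℝ) ^ (t + 1))
      ≤ (ρ * nF) * (D₀ * c₃ * (β * (2 ^ m * (K : ℝ) ^ (t + 1)))) := by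
    calc (ρ * nF) * (ε / 4 * (N : ℝ) ^ (t + 1)) = ε / 4 * ρ * nF * (N : ℝ) ^ (t + 1) := by ring
      _ ≤ _ := h28
      _ = _ := by ring
  exact le_of_mul_le_mul_left h29 (by positivity)

end Pool.Agent.Helper68.SDX
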