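import Pool.Agent.Helper61.SDP.FO

set_option autoImplicit false

/-!
# Functions of bounded degree in every row
-/

namespace Pool.Agent.Helper68.SDX

open Finset Pool.Agent.Helper68.SDP Pool.Agent.Helper61.SDPFO

/-- number of elements of `A` in the row `i` -/
def row {m N : ℕ} (A : Finset (Fin m × Fin N)) (i : Fin m) : Finset (Fin m × Fin N) :=
  A.filter fun p => p.1 = i

/-- functions of degree at most `k` in every row -/
def RDeg (m N k : ℕ) : Submodule ℝ ((Fin m × Fin N → Bool) → ℝ) :=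
  Submodule.span ℝ {q | ∃ A : Finset (Fin m × Fin N), (∀ i, (row A i).card ≤ k) ∧ q = chi A}

theorem rdeg_chi {m N k : ℕ} {A : Finset (Fin m × Fin N)} (h : ∀ i, (row A i).card ≤ k) :
    chi A ∈ RDeg m N k := Submodule.subset_span ⟨A, h, rfl⟩

theorem rdeg_mono {m N k l : ℕ} (h : k ≤ l) : RDeg m N k ≤ RDeg m N l := by
  refine Submodule.span_mono ?_
  rintro q ⟨A, hA, rfl⟩
  exact ⟨A, fun i => (hA i).trans h, rfl⟩

theorem rdeg_const {m N : ℕ} (k : ℕ) (c : ℝ) :
    (fun _ : Fin m × Fin N → Bool => c) ∈ RDeg m N k := by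
  have h : (fun _ : Fin m × Fin N → Bool => c) = c • chi (∅ : Finset (Fin m × Fin N)) := by
    funext x; simp [chi]
  rw [h]
  exact Submodule.smul_mem _ _ (rdeg_chi fun i => by simp [row])

theorem chi_mul' {ι : Type} [DecidableEq ι] (A B : Finset ι) (x : ι → Bool) :
    chi A x * chi B x = chi (symmDiff A B) x := by
  have h1 : ∏ i ∈ A, sg (x i) = (∏ i ∈ A \ B, sg (x i)) * ∏ i ∈ A ∩ B, sg (x i) := by
    rw [← Finset.prod_union]
    · rw [Finset.sdiff_union_inter]
    · exact Finset.disjoint_sdiff_inter A B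
  have h2 : ∏ i ∈ B, sg (x i) = (∏ i ∈ B \ A, sg (x i)) * ∏ i ∈ A ∩ B, sg (x i) := by
    rw [Finset.inter_comm A B, ← Finset.prod_union]
    · rw [Finset.sdiff_union_inter]
    · exact Finset.disjoint_sdiff_inter B A
  have h3 : ∏ i ∈ symmDiff A B, sg (x i) = (∏ i ∈ A \ B, sg (x i)) * ∏ i ∈ B \ A, sg (x i) := by
    rw [← Finset.prod_union]
    · rfl
    · exact disjoint_sdiff_sdiff
  have h4 : (∏ i ∈ A ∩ B, sg (x i)) * ∏ i ∈ A ∩ B, sg (x i) = 1 := by
    rw [← Finset.prod_mul_distrib]
    exact Finset.prod_eq_one (fun i _ => sg_mul_self (x i))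
  rw [chi_eq, chi_eq, chi_eq, h1, h2, h3]
  calc (∏ i ∈ A \ B, sg (x i)) * (∏ i ∈ A ∩ B, sg (x i)) *
      ((∏ i ∈ B \ A, sg (x i)) * ∏ i ∈ A ∩ B, sg (x i))
      = (∏ i ∈ A \ B, sg (x i)) * (∏ i ∈ B \ A, sg (x i)) *
        ((∏ i ∈ A ∩ B, sg (x i)) * ∏ i ∈ A ∩ B, sg (x i)) := by ring
    _ = _ := by rw [h4, mul_one]

theorem row_symmDiff {m N : ℕ} (A B : Finset (Fin m × Fin N)) (i : Fin m) :
    (row (symmDiff A B) i).card ≤ (row A i).card + (row B i).card := by
  have h : row (symmDiff A B) i ⊆ row A i ∪ row B i := by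
    intro p hp
    unfold row at hp ⊢
    rw [mem_filter, Finset.mem_symmDiff] at hp
    rw [mem_union, mem_filter, mem_filter]
    rcases hp with ⟨h | h, h2⟩
    · exact Or.inl ⟨h.1, h2⟩
    · exact Or.inr ⟨h.1, h2⟩
  exact (card_le_card h).trans (card_union_le _ _)

theorem rdeg_mul {m N : ℕ} (k l : ℕ) (p q : (Fin m × Fin N → Bool) → ℝ)
    (hp : p ∈ RDeg m N k) (hq : q ∈ RDeg m N l) : (fun x => p x * q x) ∈ RDeg m N (k + l) := by
  have key : p * q ∈ RDeg m N (k + l) := by
    refine Submodule.span_induction (p := fun p _ => p * q ∈ RDeg m N (k + l)) ?_ ?_ ?_ ?_ hp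
    · rintro p ⟨A, hA, rfl⟩
      refine Submodule.span_induction (p := fun q _ => chi A * q ∈ RDeg m N (k + l))
        ?_ ?_ ?_ ?_ hq
      · rintro q ⟨B, hB, rfl⟩
        have : chi A * chi B = chi (symmDiff A B) := by
          funext x
          exact chi_mul' A B x
        rw [this]
        exact rdeg_chi fun i => (row_symmDiff A B i).trans (Nat.add_le_add (hA i) (hB i))
      · rw [mul_zero]; exact Submodule.zero_mem _
      · intro a b _ _ ha hb
        rw [mul_add]; exact Submodule.add_mem _ ha hb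
      · intro c a _ ha
        rw [mul_smul_comm]; exact Submodule.smul_mem _ c ha
    · rw [zero_mul]; exact Submodule.zero_mem _
    · intro a b _ _ ha hb
      rw [add_mul]; exact Submodule.add_mem _ ha hb
    · intro c a _ ha
      rw [smul_mul_assoc]; exact Submodule.smul_mem _ c ha
  exact key

/-- functions of the selected variables have degree one in every row -/
theorem rdeg_sel {m N : ℕ} (D : (Fin m → Bool) → ℝ) (φ : Fin m → Fin N) :
    (fun x => D (sel φ x)) ∈ RDeg m N 1 := by
  have h : (fun x : Fin m × Fin N → Bool => D (sel φ x))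
      = ∑ C : Finset (Fin m), coef C D • chi (C.image fun i => (i, φ i)) := by
    funext x
    rw [Finset.sum_apply, inversion D (sel φ x)]
    refine sum_congr rfl fun C _ => ?_
    rw [Pi.smul_apply, smul_eq_mul]
    congr 1
    rw [chi_eq, chi_eq, prod_image]
    · rfl
    · intro i _ j _ h
      exact (Prod.mk.inj h).1
  rw [h]
  refine Submodule.sum_mem _ fun C _ => Submodule.smul_mem _ _ (rdeg_chi fun i => ?_)
  refine card_le_one.mpr ?_
  intro p hp q hq
  unfold row at hp hq
  rw [mem_filter, mem_image] at hp hq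
  obtain ⟨⟨a, _, rfl⟩, ha⟩ := hp
  obtain ⟨⟨b, _, rfl⟩, hb⟩ := hq
  simp only at ha hb
  rw [ha, hb]

theorem coef_rdeg {m N k : ℕ} {q : (Fin m × Fin N → Bool) → ℝ} (hq : q ∈ RDeg m N k)
    {A : Finset (Fin m × Fin N)} (hA : ¬ ∀ i, (row A i).card ≤ k) : coef A q = 0 := by
  unfold RDeg at hq
  induction hq using Submodule.span_induction with
  | mem q hq =>
    obtain ⟨B, hB, rfl⟩ := hq
    rw [coef_chi, if_neg]
    rintro rfl
    exact hA hB
  | zero => simp
  | add q r _ _ h1 h2 => rw [map_add, h1, h2, add_zero]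
  | smul a q _ h => rw [map_smul, h, smul_zero]

theorem rcount {m N : ℕ} (t k : ℕ) (A : Finset (Fin m × Fin N)) (hA : ∀ i, (row A i).card ≤ k) :
    ((univ.filter fun φ : Fin m → Fin N => ¬ (TT φ A).card ≤ t).card : ℝ) * (N : ℝ) ^ (t + 1) ≤
      2 ^ m * (k : ℝ) ^ (t + 1) * (N : ℝ) ^ m := by
  have hNk : (univ.filter fun φ : Fin m → Fin N => ¬ (TT φ A).card ≤ t) ⊆
      (powersetCard (t + 1) (univ : Finset (Fin m))).biUnion
        fun T => Fintype.piFinset fun i => if i ∈ T then univ.filter fun j => (i, j) ∈ A else univ := by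
    intro φ hφ
    rw [Finset.mem_filter] at hφ
    have h1 : t + 1 ≤ (TT φ A).card := by omega
    obtain ⟨T, hT1, hT2⟩ := Finset.exists_subset_card_eq h1
    rw [Finset.mem_biUnion]
    refine ⟨T, ?_, ?_⟩
    · rw [Finset.mem_powersetCard]
      exact ⟨Finset.subset_univ _, hT2⟩
    · rw [Fintype.mem_piFinset]
      intro i
      split_ifs with hi
      · have := hT1 hi
        simp only [TT, Finset.mem_filter, Finset.mem_univ, true_and] at this
        simp [this]
      · simp
  have hT : ∀ T ∈ powersetCard (t + 1) (univ : Finset (Fin m)),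
      (Fintype.piFinset fun i => if i ∈ T then univ.filter fun j => (i, j) ∈ A
        else (univ : Finset (Fin N))).card * N ^ (t + 1) ≤ k ^ (t + 1) * N ^ m := by
    intro T hT
    rw [Finset.mem_powersetCard] at hT
    have h1 : (Fintype.piFinset fun i => if i ∈ T then univ.filter fun j => (i, j) ∈ A
        else (univ : Finset (Fin N))).card ≤ ∏ i : Fin m, (if i ∈ T then k else N) := by
      rw [Fintype.card_piFinset]
      apply Finset.prod_le_prod'
      intro i _
      split_ifs with hi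
      · refine le_trans ?_ (hA i)
        apply Finset.card_le_card_of_injOn (fun j => (i, j))
        · intro j hj
          simp only [Finset.coe_filter, Finset.mem_univ, true_and] at hj
          simp only [row, Finset.coe_filter]
          exact ⟨hj, rfl⟩
        · intro j _ j' _ h
          exact (Prod.mk.inj h).2
      · simp
    have h2 : ∏ i : Fin m, (if i ∈ T then k else N) = k ^ (t + 1) * N ^ (m - (t + 1)) := by
      rw [Finset.prod_ite, Finset.prod_const, Finset.prod_const]
      have e1 : (univ.filter fun i => i ∈ T) = T := by ext; simp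
      have e2 : (univ.filter fun i => i ∉ T) = Tᶜ := by ext; simp
      rw [e1, e2, Finset.card_compl, hT.2, Fintype.card_fin]
    have h3 : t + 1 ≤ m := by
      have := Finset.card_le_univ T
      rw [hT.2, Fintype.card_fin] at this
      exact this
    calc _ ≤ (k ^ (t + 1) * N ^ (m - (t + 1))) * N ^ (t + 1) := by
          rw [← h2]; exact Nat.mul_le_mul_right _ h1
      _ = k ^ (t + 1) * N ^ m := by
          rw [mul_assoc, ← pow_add]
          congr 2
          omega
  have hnat : (univ.filter fun φ : Fin m → Fin N => ¬ (TT φ A).card ≤ t).card * N ^ (t + 1) ≤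
      2 ^ m * (k ^ (t + 1) * N ^ m) := by
    calc _ ≤ (∑ T ∈ powersetCard (t + 1) (univ : Finset (Fin m)),
          (Fintype.piFinset fun i => if i ∈ T then univ.filter fun j => (i, j) ∈ A
            else (univ : Finset (Fin N))).card) * N ^ (t + 1) :=
          Nat.mul_le_mul_right _ ((Finset.card_le_card hNk).trans Finset.card_biUnion_le)
      _ ≤ ∑ T ∈ powersetCard (t + 1) (univ : Finset (Fin m)), k ^ (t + 1) * N ^ m := by
          rw [Finset.sum_mul]
          exact Finset.sum_le_sum hT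
      _ = (m.choose (t + 1)) * (k ^ (t + 1) * N ^ m) := by
          rw [Finset.sum_const, Finset.card_powersetCard, Finset.card_univ, Fintype.card_fin,
            smul_eq_mul]
      _ ≤ 2 ^ m * (k ^ (t + 1) * N ^ m) := by
          apply Nat.mul_le_mul_right
          exact Nat.choose_le_two_pow m (t + 1)
  have : (((univ.filter fun φ : Fin m → Fin N => ¬ (TT φ A).card ≤ t).card * N ^ (t + 1) : ℕ) : ℝ) ≤
      ((2 ^ m * (k ^ (t + 1) * N ^ m) : ℕ) : ℝ) := by exact_mod_cast hnat
  push_cast at this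
  rw [mul_assoc (2 ^ m : ℝ)]
  exact this

/-- the part of high degree in the selected variables is small on average -/
theorem high_le {m N t k : ℕ} (q : (Fin m × Fin N → Bool) → ℝ) (hq : q ∈ RDeg m N k) :
    (∑ φ : Fin m → Fin N, ∑ x, (q x - low t φ q x) ^ 2) * (N : ℝ) ^ (t + 1)
        ≤ 2 ^ m * (k : ℝ) ^ (t + 1) * (N : ℝ) ^ m * ∑ x, q x ^ 2 := by
  set n := Fintype.card (Fin m × Fin N) with hn
  have h1 : ∀ φ : Fin m → Fin N, ∑ x, (q x - low t φ q x) ^ 2 =
      (2 : ℝ) ^ n * ∑ A, (if ¬ (TT φ A).card ≤ t then coef A q ^ 2 else 0) := by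
    intro φ
    have e1 : ∀ x, q x - low t φ q x = ∑ A, (if (TT φ A).card ≤ t then 0 else coef A q) * chi A x := by
      intro x
      rw [low_apply]
      conv_lhs => rw [inversion q x]
      rw [← Finset.sum_sub_distrib]
      apply Finset.sum_congr rfl
      intro A _
      split_ifs <;> ring
    simp_rw [e1]
    rw [parseval]
    congr 1
    apply Finset.sum_congr rfl
    intro A _
    split_ifs <;> simp_all
  have h2 : ∑ x, q x ^ 2 = (2 : ℝ) ^ n * ∑ A, coef A q ^ 2 := by
    have : ∀ x, q x ^ 2 = (∑ A, coef A q * chi A x) ^ 2 := fun x => by rw [← inversion q x]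
    simp_rw [this]
    rw [parseval]
  simp_rw [h1]
  rw [h2, ← Finset.mul_sum, Finset.sum_comm]
  have h3 : ∀ A : Finset (Fin m × Fin N),
      (∑ φ : Fin m → Fin N, (if ¬ (TT φ A).card ≤ t then coef A q ^ 2 else 0)) * (N : ℝ) ^ (t + 1) ≤
        2 ^ m * (k : ℝ) ^ (t + 1) * (N : ℝ) ^ m * coef A q ^ 2 := by
    intro A
    rw [← Finset.sum_filter, Finset.sum_const, nsmul_eq_mul]
    by_cases hA : ∀ i, (row A i).card ≤ k
    · have := rcount t k A hA
      nlinarith [sq_nonneg (coef A q)]
    · rw [coef_rdeg hq hA]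
      simp
  have h4 : (∑ A : Finset (Fin m × Fin N), ∑ φ : Fin m → Fin N,
      (if ¬ (TT φ A).card ≤ t then coef A q ^ 2 else 0)) * (N : ℝ) ^ (t + 1) ≤
      2 ^ m * (k : ℝ) ^ (t + 1) * (N : ℝ) ^ m * ∑ A, coef A q ^ 2 := by
    rw [Finset.sum_mul, Finset.mul_sum]
    exact Finset.sum_le_sum fun A _ => h3 A
  have h5 : (0 : ℝ) ≤ 2 ^ n := by positivity
  calc _ = (2 : ℝ) ^ n * ((∑ A : Finset (Fin m × Fin N), ∑ φ : Fin m → Fin N,
      (if ¬ (TT φ A).card ≤ t then coef A q ^ 2 else 0)) * (N : ℝ) ^ (t + 1)) := by ring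
    _ ≤ (2 : ℝ) ^ n * (2 ^ m * (k : ℝ) ^ (t + 1) * (N : ℝ) ^ m * ∑ A, coef A q ^ 2) :=
        mul_le_mul_of_nonneg_left h4 h5
    _ = _ := by ring

end Pool.Agent.Helper68.SDX
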